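import Mathlib
import Pool.Agent.H237.Primes.Fejer

/-!
# Averages of exponentials with prescribed correlations
-/

namespace Pool.Agent.H237.Digits

open MeasureTheory Set Filter Topology Pool.Agent.H237.Primes
open scoped ComplexConjugate

/-- The average of the exponentials with the frequencies `a 0, …, a (L - 1)`. -/
noncomputable def Av (L : ℕ) (a : ℕ → ℤ) (x : UnitAddCircle) : ℂ :=
  (L : ℂ)⁻¹ * ∑ i ∈ Finset.range L, (fourier (a i) x : ℂ)

lemma continuous_Av (L : ℕ) (a : ℕ → ℤ) : Continuous (Av L a) := by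
  unfold Av
  fun_prop

lemma continuous_AvAv (L : ℕ) (a b : ℕ → ℤ) : Continuous fun x => Av L a x * Av L b x :=
  (continuous_Av L a).mul (continuous_Av L b)

lemma norm_Av_le (L : ℕ) (a : ℕ → ℤ) (x : UnitAddCircle) : ‖Av L a x‖ ≤ 1 := by
  unfold Av
  rw [norm_mul, norm_inv, Complex.norm_natCast]
  rcases Nat.eq_zero_or_pos L with h | h
  · subst h; simp
  · have hL : (0 : ℝ) < L := by exact_mod_cast h
    rw [inv_mul_le_iff₀ hL, mul_one]
    refine le_trans (norm_sum_le _ _) ?_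
    simp only [norm_fourier_one]
    simp

lemma conj_Av (L : ℕ) (a : ℕ → ℤ) (x : UnitAddCircle) :
    conj (Av L a x) = Av L (fun i => -a i) x := by
  unfold Av
  rw [map_mul, map_inv₀, Complex.conj_natCast, map_sum]
  congr 1
  apply Finset.sum_congr rfl
  intro i _
  exact fourier_neg.symm

lemma fourier_mul_fourier (a b : ℤ) (x : UnitAddCircle) :
    (fourier a x : ℂ) * fourier b x = fourier (a + b) x := fourier_add.symm

lemma integrable_of_cont (ν : Measure UnitAddCircle) [IsFiniteMeasure ν] {f : UnitAddCircle → ℂ}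
    (hf : Continuous f) : Integrable f ν :=
  (BoundedContinuousFunction.mkOfCompact ⟨f, hf⟩).integrable ν

lemma integrable_of_contR (ν : Measure UnitAddCircle) [IsFiniteMeasure ν] {f : UnitAddCircle → ℝ}
    (hf : Continuous f) : Integrable f ν :=
  (BoundedContinuousFunction.mkOfCompact ⟨f, hf⟩).integrable ν

lemma integral_single (ν : Measure UnitAddCircle) [IsFiniteMeasure ν] {L : ℕ} (hL : 0 < L)
    {a : ℕ → ℤ} {c : ℂ} (h : ∀ i < L, ∫ x, (fourier (a i) x : ℂ) ∂ν = c) :
    ∫ x, Av L a x ∂ν = c := by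
  have hL0 : (L : ℂ) ≠ 0 := by exact_mod_cast hL.ne'
  unfold Av
  rw [integral_const_mul, integral_finsetSum _ fun i _ => integrable_fourier ν _]
  rw [Finset.sum_congr rfl fun i hi => h i (Finset.mem_range.mp hi)]
  rw [Finset.sum_const, Finset.card_range, nsmul_eq_mul, ← mul_assoc, inv_mul_cancel₀ hL0, one_mul]

lemma Av_mul (L : ℕ) (a : ℕ → ℤ) (b : ℤ) (x : UnitAddCircle) :
    Av L a x * fourier b x = Av L (fun i => a i + b) x := by
  unfold Av
  rw [mul_assoc, Finset.sum_mul]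
  congr 1
  apply Finset.sum_congr rfl
  intro i _
  exact fourier_mul_fourier _ _ _

lemma Av_mul_Av (L : ℕ) (a b : ℕ → ℤ) (x : UnitAddCircle) :
    Av L a x * Av L b x = (L : ℂ)⁻¹ * ∑ j ∈ Finset.range L, Av L (fun i => a i + b j) x := by
  conv_lhs => rw [Av.eq_def L b x]
  rw [mul_left_comm, Finset.mul_sum]
  congr 1
  apply Finset.sum_congr rfl
  intro j _
  exact Av_mul _ _ _ _

lemma integral_pair (ν : Measure UnitAddCircle) [IsFiniteMeasure ν] {L : ℕ} (hL : 0 < L)
    {a b : ℕ → ℤ} {c : ℂ}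
    (h : ∀ i < L, ∀ j < L, ∫ x, (fourier (a i + b j) x : ℂ) ∂ν = c) :
    ∫ x, Av L a x * Av L b x ∂ν = c := by
  have hL0 : (L : ℂ) ≠ 0 := by exact_mod_cast hL.ne'
  simp_rw [Av_mul_Av]
  rw [integral_const_mul, integral_finsetSum _ fun i _ => integrable_of_cont ν (continuous_Av _ _)]
  rw [Finset.sum_congr rfl fun j hj =>
    integral_single ν hL (a := fun i => a i + b j) fun i hi => h i hi j (Finset.mem_range.mp hj)]
  rw [Finset.sum_const, Finset.card_range, nsmul_eq_mul, ← mul_assoc, inv_mul_cancel₀ hL0, one_mul]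

lemma integral_triple (ν : Measure UnitAddCircle) [IsFiniteMeasure ν] {L : ℕ} (hL : 0 < L)
    {a b d : ℕ → ℤ} {c : ℂ}
    (h : ∀ i < L, ∀ j < L, ∀ k < L, ∫ x, (fourier (a i + b j + d k) x : ℂ) ∂ν = c) :
    ∫ x, Av L a x * Av L b x * Av L d x ∂ν = c := by
  have hL0 : (L : ℂ) ≠ 0 := by exact_mod_cast hL.ne'
  have e : ∀ x, Av L a x * Av L b x * Av L d x =
      (L : ℂ)⁻¹ * ∑ j ∈ Finset.range L, Av L (fun i => a i + b j) x * Av L d x := by
    intro x
    rw [Av_mul_Av, mul_assoc, Finset.sum_mul]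
  simp_rw [e]
  rw [integral_const_mul, integral_finsetSum _ fun i _ => integrable_of_cont ν
    (continuous_AvAv _ _ _)]
  rw [Finset.sum_congr rfl fun j hj =>
    integral_pair ν hL (a := fun i => a i + b j) (b := d) (c := c) fun i hi k hk =>
      h i hi j (Finset.mem_range.mp hj) k hk]
  rw [Finset.sum_const, Finset.card_range, nsmul_eq_mul, ← mul_assoc, inv_mul_cancel₀ hL0, one_mul]

lemma re_integral (ν : Measure UnitAddCircle) [IsFiniteMeasure ν] {f : UnitAddCircle → ℂ}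
    (hf : Continuous f) : ∫ x, (f x).re ∂ν = (∫ x, f x ∂ν).re :=
  Complex.reCLM.integral_comp_comm (integrable_of_cont ν hf)

/-- The mean square of an average. -/
lemma integral_normSq (ν : Measure UnitAddCircle) [IsProbabilityMeasure ν] {L : ℕ} (hL : 0 < L)
    {a : ℕ → ℤ} {r : ℝ}
    (h : ∀ i < L, ∀ j < L, i ≠ j → (∫ x, (fourier (a i - a j) x : ℂ) ∂ν).re = r) :
    ∫ x, Complex.normSq (Av L a x) ∂ν = 1 / L + (1 - 1 / L) * r := by
  have hLR : (0 : ℝ) < L := by exact_mod_cast hL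
  have e1 : ∀ x, Complex.normSq (Av L a x) = (Av L a x * Av L (fun i => -a i) x).re := by
    intro x
    rw [← conj_Av, Complex.mul_conj, Complex.ofReal_re]
  simp_rw [e1]
  rw [re_integral ν (continuous_AvAv _ _ _)]
  simp_rw [Av_mul_Av]
  rw [integral_const_mul, integral_finsetSum _ fun i _ => integrable_of_cont ν (continuous_Av _ _)]
  have e2 : ∀ j ∈ Finset.range L, ∫ x, Av L (fun i => a i + -a j) x ∂ν =
      (L : ℂ)⁻¹ * ∑ i ∈ Finset.range L, ∫ x, (fourier (a i - a j) x : ℂ) ∂ν := by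
    intro j _
    unfold Av
    rw [integral_const_mul, integral_finsetSum _ fun i _ => integrable_fourier ν _]
    simp_rw [← sub_eq_add_neg]
  rw [Finset.sum_congr rfl e2, ← Finset.mul_sum]
  have e3 : ((L : ℂ)⁻¹ * ((L : ℂ)⁻¹ * ∑ j ∈ Finset.range L, ∑ i ∈ Finset.range L,
      ∫ x, (fourier (a i - a j) x : ℂ) ∂ν)).re = (L : ℝ)⁻¹ * ((L : ℝ)⁻¹ *
      ∑ j ∈ Finset.range L, ∑ i ∈ Finset.range L, (∫ x, (fourier (a i - a j) x : ℂ) ∂ν).re) := by
    have : ((L : ℂ)⁻¹) = (((L : ℝ)⁻¹ : ℝ) : ℂ) := by push_cast; rfl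
    rw [this, Complex.re_ofReal_mul, Complex.re_ofReal_mul, Complex.re_sum]
    congr 2
    apply Finset.sum_congr rfl
    intro j _
    rw [Complex.re_sum]
  rw [e3]
  have e4 : ∀ j ∈ Finset.range L, ∑ i ∈ Finset.range L,
      (∫ x, (fourier (a i - a j) x : ℂ) ∂ν).re = 1 + (L - 1) * r := by
    intro j hj
    rw [← Finset.add_sum_erase _ _ hj]
    have h0 : (∫ x, (fourier (a j - a j) x : ℂ) ∂ν).re = 1 := by simp
    rw [h0]
    congr 1
    rw [Finset.sum_congr rfl fun i hi => h i (Finset.mem_range.mp (Finset.mem_of_mem_erase hi)) j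
      (Finset.mem_range.mp hj) (Finset.ne_of_mem_erase hi)]
    rw [Finset.sum_const, Finset.card_erase_of_mem hj, Finset.card_range, nsmul_eq_mul,
      Nat.cast_sub (by omega)]
    simp
  rw [Finset.sum_congr rfl e4, Finset.sum_const, Finset.card_range, nsmul_eq_mul]
  field_simp

end Pool.Agent.H237.Digits
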