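import Mathlib
import Pool.Agent.H237.Digits.Avg
import Pool.Agent.H237.Primes.Compare

/-!
# The average over a block of exponents is almost `0` or `1`
-/

namespace Pool.Agent.H237.Digits

open MeasureTheory Set Filter Topology Pool.Agent.H237.Primes Pool.Agent.H237.Gap
open scoped ComplexConjugate

/-- The coefficients at `2 ^ i`, `2 ^ i - 2 ^ j` and `2 ^ i + σ 2 ^ j + τ 2 ^ k` are all equal. -/
structure Coef (ν : Measure UnitAddCircle) (K : ℕ) (σ τ : ℤ) (c : ℂ) : Prop where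
  hσ : σ = 1 ∨ σ = -1
  hτ : τ = 1 ∨ τ = -1
  one : ∀ i, i ≤ K → ∫ x, (fourier ((2 : ℤ) ^ i) x : ℂ) ∂ν = c
  two : ∀ i j, j < i → i ≤ K → ∫ x, (fourier ((2 : ℤ) ^ i - 2 ^ j) x : ℂ) ∂ν = c
  three : ∀ i j k, k < j → j < i → i ≤ K →
    ∫ x, (fourier ((2 : ℤ) ^ i + σ * 2 ^ j + τ * 2 ^ k) x : ℂ) ∂ν = c

lemma coef_of_inv {ν : Measure UnitAddCircle} {K : ℕ} {σ τ : ℤ}
    (hσ : σ = 1 ∨ σ = -1) (hτ : τ = 1 ∨ τ = -1) (h2 : Inv ν 2)
    (hM : ∀ i, 2 ≤ i → i ≤ K → Inv ν (2 ^ i - 1))
    (h3 : ∀ i j, 1 ≤ j → j < i → i ≤ K → ∀ m : ℕ, (m : ℤ) = 2 ^ i + σ * 2 ^ j + τ → Inv ν m) :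
    Coef ν K σ τ (∫ x, (fourier 1 x : ℂ) ∂ν) := by
  refine ⟨hσ, hτ, ?_, ?_, ?_⟩
  · intro i _
    have := integral_fourier_inv (h2.pow i) 1
    rw [mul_one] at this
    rw [← this]
    push_cast
    rfl
  · intro i j hj hi
    obtain ⟨d, rfl⟩ : ∃ d, i = j + d := ⟨i - j, by omega⟩
    have hInv : Inv ν (2 ^ d - 1) := by
      rcases Nat.lt_or_ge d 2 with h | h
      · have : d = 1 := by omega
        subst this
        exact Inv.one ν
      · exact hM d h (by omega)
    have := integral_fourier_inv ((h2.pow j).mul hInv) 1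
    rw [mul_one] at this
    rw [← this]
    have h1 : 1 ≤ 2 ^ d := Nat.one_le_two_pow
    push_cast [Nat.cast_sub h1]
    congr 1
    ext x
    congr 2
    ring
  · intro i j k hk hj hi
    obtain ⟨d, rfl⟩ : ∃ d, j = k + d := ⟨j - k, by omega⟩
    obtain ⟨e, rfl⟩ : ∃ e, i = k + (d + e) := ⟨i - (k + d), by omega⟩
    have hpos : 0 ≤ (2 : ℤ) ^ (d + e) + σ * 2 ^ d + τ := by
      have h1 : (2 : ℤ) ^ (d + 1) ≤ 2 ^ (d + e) := pow_le_pow_right₀ (by norm_num) (by omega)
      have h2 : (2 : ℤ) ^ 1 ≤ 2 ^ d := pow_le_pow_right₀ (by norm_num) (by omega)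
      rw [pow_succ] at h1
      rcases hσ with rfl | rfl <;> rcases hτ with rfl | rfl <;> linarith
    obtain ⟨m, hm⟩ := Int.eq_ofNat_of_zero_le hpos
    have hInv : Inv ν m := h3 (d + e) d (by omega) (by omega) (by omega) m hm.symm
    have := integral_fourier_inv ((h2.pow k).mul hInv) 1
    rw [mul_one] at this
    rw [← this]
    push_cast
    rw [← hm]
    congr 1
    ext x
    congr 2
    ring

/-- A power of conjugation. -/
noncomputable def sg (s : ℤ) (z : ℂ) : ℂ := if s = 1 then z else conj z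

lemma norm_sg (s : ℤ) (z : ℂ) : ‖sg s z‖ = ‖z‖ := by
  unfold sg; split <;> simp

lemma sg_sub (s : ℤ) (z w : ℂ) : sg s z - sg s w = sg s (z - w) := by
  unfold sg; split <;> simp

lemma sg_Av {s : ℤ} (hs : s = 1 ∨ s = -1) (L : ℕ) (a : ℕ → ℤ) (x : UnitAddCircle) :
    sg s (Av L a x) = Av L (fun i => s * a i) x := by
  unfold sg
  rcases hs with rfl | rfl
  · simp
  · rw [if_neg (by norm_num), conj_Av]
    congr 1
    ext i
    ring

/-- The pointwise inequality. -/
lemma pw {z : ℂ} (hz : ‖z‖ ≤ 1) {s t : ℤ} {κ : ℝ} (hκ : 8 ≤ κ) :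
    Complex.normSq z * (1 - z.re) ≤ κ * (Complex.normSq z - (z * sg s z * sg t z).re) +
      (Complex.normSq z - z.re) + 1 / (2 * (κ - 3)) := by
  have hns : Complex.normSq z = ‖z‖ ^ 2 := Complex.normSq_eq_norm_sq z
  set w := ‖z‖ with hw
  have hw0 : 0 ≤ w := norm_nonneg _
  have hre : z.re ≤ w := (Complex.abs_re_le_norm z |> (le_trans (le_abs_self _)))
  have hre' : -w ≤ z.re := by
    have := Complex.abs_re_le_norm z
    exact (abs_le.mp this).1
  have hT : w ^ 2 - w ^ 3 ≤ Complex.normSq z - (z * sg s z * sg t z).re := by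
    rw [hns]
    have h1 : (z * sg s z * sg t z).re ≤ ‖z * sg s z * sg t z‖ :=
      le_trans (le_abs_self _) (Complex.abs_re_le_norm _)
    rw [norm_mul, norm_mul, norm_sg, norm_sg, ← hw] at h1
    nlinarith
  have hκ3 : 0 < κ - 3 := by linarith
  have hinv : 0 ≤ 1 / (2 * (κ - 3)) := by positivity
  have hw2 : w ^ 2 - w ^ 3 = w ^ 2 * (1 - w) := by ring
  have hT0 : 0 ≤ w ^ 2 - w ^ 3 := by
    rw [hw2]
    apply mul_nonneg (by positivity)
    linarith
  set T := Complex.normSq z - (z * sg s z * sg t z).re with hTdef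
  rw [hns]
  rcases le_or_gt w (1 / 2) with h | h
  · -- small `z`
    have a1 : w ^ 2 / 2 ≤ T := by nlinarith
    have a2 : w ^ 2 * (1 - z.re) ≤ 3 * T := by nlinarith
    have a3 : 0 ≤ (κ - 3) * (w ^ 2 / 2) - w + 1 / (2 * (κ - 3)) := by
      have e : (κ - 3) * (w ^ 2 / 2) - w + 1 / (2 * (κ - 3)) = ((κ - 3) * w - 1) ^ 2 / (2 * (κ - 3)) := by
        field_simp
        ring
      rw [e]
      positivity
    have a4 : (κ - 3) * (w ^ 2 / 2) ≤ (κ - 3) * T := mul_le_mul_of_nonneg_left a1 hκ3.le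
    nlinarith
  · have a1 : 1 - w ≤ 4 * T := by
      have b1 : (1 / 4 : ℝ) ≤ w ^ 2 := by nlinarith
      have b2 : 1 / 4 * (1 - w) ≤ w ^ 2 * (1 - w) :=
        mul_le_mul_of_nonneg_right b1 (by linarith)
      linarith
    have a2 : w ^ 2 * (1 - z.re) - (w ^ 2 - z.re) = z.re * (1 - w ^ 2) := by ring
    have a3 : z.re * (1 - w ^ 2) ≤ 8 * T := by
      have : 1 - w ^ 2 = (1 - w) * (1 + w) := by ring
      have h3 : 0 ≤ 1 - w ^ 2 := by rw [this]; apply mul_nonneg <;> linarith
      have h4 : 1 - w ^ 2 ≤ 8 * T := by rw [this]; nlinarith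
      rcases le_or_gt z.re 0 with h5 | h5
      · have : z.re * (1 - w ^ 2) ≤ 0 := mul_nonpos_of_nonpos_of_nonneg h5 h3
        linarith
      · nlinarith
    have hT' : 0 ≤ T := by linarith
    nlinarith

/-- `|z| ≤ η / 2 + |z|² / (2 η)`. -/
lemma norm_le_half (z : ℂ) {η : ℝ} (hη : 0 < η) :
    ‖z‖ ≤ η / 2 + Complex.normSq z / (2 * η) := by
  rw [Complex.normSq_eq_norm_sq]
  have : η / 2 + ‖z‖ ^ 2 / (2 * η) - ‖z‖ = (‖z‖ - η) ^ 2 / (2 * η) := by
    field_simp
    ring
  have h2 : 0 ≤ (‖z‖ - η) ^ 2 / (2 * η) := by positivity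
  linarith

section

variable {ν : Measure UnitAddCircle} [IsProbabilityMeasure ν] {K L : ℕ} {σ τ : ℤ} {c : ℂ}

/-- The block of powers of two number `r`. -/
def bl (L r i : ℕ) : ℤ := 2 ^ (r * L + i)

lemma two_re (h : Coef ν K σ τ c) (hL : 3 * L ≤ K) {r r' : ℕ} (hr : r < 3) (hr' : r' < 3) {i j : ℕ}
    (hi : i < L) (hj : j < L) (hne : r * L + i ≠ r' * L + j) :
    (∫ x, (fourier (bl L r i - bl L r' j) x : ℂ) ∂ν).re = c.re := by
  have b1 : r * L + i ≤ K := by
    have : r * L ≤ 2 * L := Nat.mul_le_mul_right _ (by omega)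
    omega
  have b2 : r' * L + j ≤ K := by
    have : r' * L ≤ 2 * L := Nat.mul_le_mul_right _ (by omega)
    omega
  unfold bl
  rcases lt_or_gt_of_ne hne with h1 | h1
  · have := h.two _ _ h1 b2
    have e : (2 : ℤ) ^ (r * L + i) - 2 ^ (r' * L + j) = -(2 ^ (r' * L + j) - 2 ^ (r * L + i)) := by
      ring
    rw [e, integral_fourier_neg, this, Complex.conj_re]
  · rw [h.two _ _ h1 b1]

lemma normSq_block (h : Coef ν K σ τ c) (hL0 : 0 < L) (hL : 3 * L ≤ K) {r : ℕ} (hr : r < 3) :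
    ∫ x, Complex.normSq (Av L (bl L r) x) ∂ν = 1 / L + (1 - 1 / L) * c.re := by
  apply integral_normSq ν hL0
  intro i hi j hj hij
  exact two_re h hL hr hr hi hj (by omega)

lemma block_diff (h : Coef ν K σ τ c) (hL0 : 0 < L) (hL : 3 * L ≤ K) {r : ℕ} (hr : r < 2) :
    ∫ x, Complex.normSq (Av L (bl L (r + 1)) x - Av L (bl L r) x) ∂ν = 2 * (1 - c.re) / L := by
  have hLR : (0 : ℝ) < L := by exact_mod_cast hL0
  have e1 : ∀ x, Complex.normSq (Av L (bl L (r + 1)) x - Av L (bl L r) x) =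
      Complex.normSq (Av L (bl L (r + 1)) x) + Complex.normSq (Av L (bl L r) x) -
        2 * (Av L (bl L (r + 1)) x * Av L (fun i => - bl L r i) x).re := by
    intro x
    rw [Complex.normSq_sub, conj_Av]
  simp_rw [e1]
  have c1 : ∀ r, Continuous fun x => Complex.normSq (Av L (bl L r) x) :=
    fun r => Complex.continuous_normSq.comp (continuous_Av _ _)
  have c2 : Continuous fun x => (Av L (bl L (r + 1)) x * Av L (fun i => - bl L r i) x).re :=
    Complex.continuous_re.comp (continuous_AvAv _ _ _)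
  have j1 : Integrable (fun x => Complex.normSq (Av L (bl L (r + 1)) x) +
      Complex.normSq (Av L (bl L r) x)) ν := integrable_of_contR ν ((c1 _).add (c1 _))
  have j2 : Integrable (fun x => 2 * (Av L (bl L (r + 1)) x * Av L (fun i => - bl L r i) x).re) ν :=
    integrable_of_contR ν (continuous_const.mul c2)
  rw [integral_sub j1 j2, integral_add (integrable_of_contR ν (c1 _))
    (integrable_of_contR ν (c1 _)), integral_const_mul, re_integral ν (continuous_AvAv _ _ _),
    normSq_block h hL0 hL (by omega), normSq_block h hL0 hL (by omega)]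
  have e2 : ∫ x, Av L (bl L (r + 1)) x * Av L (fun i => - bl L r i) x ∂ν = c := by
    apply integral_pair ν hL0
    intro i hi j hj
    unfold bl
    rw [← sub_eq_add_neg]
    have e3 : (r + 1) * L = r * L + L := by ring
    have : r * L ≤ 1 * L := Nat.mul_le_mul_right _ (by omega)
    exact h.two _ _ (by omega) (by omega)
  rw [e2]
  field_simp
  ring

lemma norm_c_le (h : Coef ν K σ τ c) : ‖c‖ ≤ 1 := by
  rw [← h.one 0 (Nat.zero_le _)]
  calc ‖∫ x, (fourier ((2 : ℤ) ^ 0) x : ℂ) ∂ν‖ ≤ ∫ x, ‖(fourier ((2 : ℤ) ^ 0) x : ℂ)‖ ∂ν :=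
        norm_integral_le_integral_norm _
    _ = 1 := by simp only [norm_fourier_one]; simp

lemma block_diff_norm (h : Coef ν K σ τ c) (hL0 : 0 < L) (hL : 3 * L ≤ K) {r : ℕ} (hr : r < 2)
    {s : ℝ} (hs : 0 < s) (hsL : s * s = L) :
    ∫ x, ‖Av L (bl L (r + 1)) x - Av L (bl L r) x‖ ∂ν ≤ 2 / s := by
  have hLR : (0 : ℝ) < L := by exact_mod_cast hL0
  have c0 : Continuous fun x => Av L (bl L (r + 1)) x - Av L (bl L r) x :=
    (continuous_Av _ _).sub (continuous_Av _ _)
  have c1 : Continuous fun x => Complex.normSq (Av L (bl L (r + 1)) x - Av L (bl L r) x) :=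
    Complex.continuous_normSq.comp c0
  have h1 : ∫ x, ‖Av L (bl L (r + 1)) x - Av L (bl L r) x‖ ∂ν ≤
      ∫ x, ((2 / s) / 2 + Complex.normSq (Av L (bl L (r + 1)) x - Av L (bl L r) x) /
        (2 * (2 / s))) ∂ν := by
    apply integral_mono (integrable_of_contR ν c0.norm)
      (integrable_of_contR ν (continuous_const.add (c1.div_const _)))
    intro x
    exact norm_le_half _ (by positivity)
  refine le_trans h1 ?_
  rw [integral_add (integrable_of_contR ν continuous_const)
    (integrable_of_contR ν (c1.div_const _)), integral_div (2 * (2 / s)), block_diff h hL0 hL hr]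
  have h2 : -1 ≤ c.re := by
    have := norm_c_le h
    have := Complex.abs_re_le_norm c
    exact (abs_le.mp (le_trans this (norm_c_le h))).1
  simp only [integral_const, probReal_univ, smul_eq_mul, one_mul]
  rw [← hsL]
  have h3 : 2 * (1 - c.re) / (s * s) / (2 * (2 / s)) ≤ 1 / s := by
    have : 2 * (1 - c.re) / (s * s) / (2 * (2 / s)) = (1 - c.re) / 2 / s := by
      field_simp
    rw [this]
    apply div_le_div_of_nonneg_right _ hs.le
    linarith
  have h4 : 2 / s / 2 + 1 / s = 2 / s := by ring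
  linarith

/-- The average over the middle block is nearly idempotent. -/
theorem quad (h : Coef ν K σ τ c) (hL0 : 0 < L) (hL : 3 * L ≤ K) {s : ℝ} (hs : 0 < s)
    (hsL : s * s = L) {κ : ℝ} (hκ : 8 ≤ κ) :
    ∫ x, Complex.normSq (Av L (bl L 1) x) * (1 - (Av L (bl L 1) x).re) ∂ν ≤
      κ * (2 / L + 4 / s) + 2 / L + 1 / (2 * (κ - 3)) := by
  have hLR : (0 : ℝ) < L := by exact_mod_cast hL0
  set A := Av L (bl L 1) with hA
  have cA : Continuous A := continuous_Av _ _
  have csg : ∀ t : ℤ, Continuous (sg t) := by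
    intro t
    unfold sg
    split
    · exact continuous_id
    · exact Complex.continuous_conj
  have cN : Continuous fun x => Complex.normSq (A x) := Complex.continuous_normSq.comp cA
  have cRe : Continuous fun x => (A x).re := Complex.continuous_re.comp cA
  have cP : Continuous fun x => A x * sg σ (A x) * sg τ (A x) :=
    (cA.mul ((csg σ).comp cA)).mul ((csg τ).comp cA)
  have hre : |c.re| ≤ 1 := le_trans (Complex.abs_re_le_norm c) (norm_c_le h)
  have hre1 : -1 ≤ c.re := (abs_le.mp hre).1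
  have hLc : 1 / (L : ℝ) + (1 - 1 / L) * c.re - c.re ≤ 2 / L := by
    have : 1 / (L : ℝ) + (1 - 1 / L) * c.re - c.re = (1 - c.re) / L := by ring
    rw [this]
    apply div_le_div_of_nonneg_right _ hLR.le
    linarith
  -- the cubic relation
  have h3 : ‖c - ∫ x, A x * sg σ (A x) * sg τ (A x) ∂ν‖ ≤ 4 / s := by
    set A2 := Av L (bl L 2) with hA2
    set A0 := Av L (bl L 0) with hA0
    have cA2 : Continuous A2 := continuous_Av _ _
    have cA0 : Continuous A0 := continuous_Av _ _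
    have e1 : ∫ x, A2 x * sg σ (A x) * sg τ (A0 x) ∂ν = c := by
      rw [hA2, hA, hA0]
      simp_rw [sg_Av h.hσ, sg_Av h.hτ]
      apply integral_triple ν hL0
      intro i hi j hj k hk
      unfold bl
      exact h.three _ _ _ (by omega) (by omega) (by omega)
    have cQ : Continuous fun x => A2 x * sg σ (A x) * sg τ (A0 x) :=
      (cA2.mul ((csg σ).comp cA)).mul ((csg τ).comp cA0)
    rw [← e1, ← integral_sub (integrable_of_cont ν cQ) (integrable_of_cont ν cP)]
    refine le_trans (norm_integral_le_integral_norm _) ?_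
    have h4 : ∫ x, ‖A2 x * sg σ (A x) * sg τ (A0 x) - A x * sg σ (A x) * sg τ (A x)‖ ∂ν ≤
        ∫ x, (‖A2 x - A x‖ + ‖A x - A0 x‖) ∂ν := by
      apply integral_mono (integrable_of_contR ν (cQ.sub cP).norm)
        (integrable_of_contR ν ((cA2.sub cA).norm.add (cA.sub cA0).norm))
      intro x
      have e2 : A2 x * sg σ (A x) * sg τ (A0 x) - A x * sg σ (A x) * sg τ (A x) =
          (A2 x - A x) * sg σ (A x) * sg τ (A0 x) - A x * sg σ (A x) * sg τ (A x - A0 x) := by
        rw [← sg_sub]; ring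
      change ‖A2 x * sg σ (A x) * sg τ (A0 x) - A x * sg σ (A x) * sg τ (A x)‖ ≤ _
      rw [e2]
      refine le_trans (norm_sub_le _ _) ?_
      rw [norm_mul, norm_mul, norm_mul, norm_mul, norm_sg, norm_sg, norm_sg]
      have n1 : ‖A x‖ ≤ 1 := norm_Av_le _ _ _
      have n0 : ‖A0 x‖ ≤ 1 := norm_Av_le _ _ _
      have p1 : ‖A2 x - A x‖ * ‖A x‖ * ‖A0 x‖ ≤ ‖A2 x - A x‖ := by
        calc ‖A2 x - A x‖ * ‖A x‖ * ‖A0 x‖ ≤ ‖A2 x - A x‖ * 1 * 1 := by gcongr
          _ = _ := by ring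
      have p2 : ‖A x‖ * ‖A x‖ * ‖A x - A0 x‖ ≤ ‖A x - A0 x‖ := by
        calc ‖A x‖ * ‖A x‖ * ‖A x - A0 x‖ ≤ 1 * 1 * ‖A x - A0 x‖ := by gcongr
          _ = _ := by ring
      change _ ≤ ‖A2 x - A x‖ + ‖A x - A0 x‖
      linarith
    refine le_trans h4 ?_
    have j1 : Integrable (fun x => ‖A2 x - A x‖) ν := integrable_of_contR ν (cA2.sub cA).norm
    have j2 : Integrable (fun x => ‖A x - A0 x‖) ν := integrable_of_contR ν (cA.sub cA0).norm
    rw [integral_add j1 j2]
    have q1 : ∫ x, ‖A2 x - A x‖ ∂ν ≤ 2 / s := block_diff_norm h hL0 hL (r := 1) (by norm_num) hs hsL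
    have q2 : ∫ x, ‖A x - A0 x‖ ∂ν ≤ 2 / s := block_diff_norm h hL0 hL (r := 0) (by norm_num) hs hsL
    have : 2 / s + 2 / s = 4 / s := by ring
    linarith
  have h4 : c.re - 4 / s ≤ ∫ x, (A x * sg σ (A x) * sg τ (A x)).re ∂ν := by
    rw [re_integral ν cP]
    have := Complex.abs_re_le_norm (c - ∫ x, A x * sg σ (A x) * sg τ (A x) ∂ν)
    rw [Complex.sub_re] at this
    have := (abs_le.mp (le_trans this h3)).2
    linarith
  have h5 : ∫ x, (A x).re ∂ν = c.re := by
    rw [re_integral ν cA]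
    congr 1
    apply integral_single ν hL0
    intro i hi
    exact h.one _ (by omega)
  have h6 : ∫ x, Complex.normSq (A x) ∂ν = 1 / L + (1 - 1 / L) * c.re :=
    normSq_block h hL0 hL (by norm_num)
  have h7 : ∫ x, Complex.normSq (A x) * (1 - (A x).re) ∂ν ≤
      ∫ x, (κ * (Complex.normSq (A x) - (A x * sg σ (A x) * sg τ (A x)).re) +
        (Complex.normSq (A x) - (A x).re) + 1 / (2 * (κ - 3))) ∂ν := by
    apply integral_mono
      (integrable_of_contR ν (cN.mul (continuous_const.sub cRe)))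
      (integrable_of_contR ν (((continuous_const.mul (cN.sub (Complex.continuous_re.comp cP))).add
        (cN.sub cRe)).add continuous_const))
    intro x
    exact pw (norm_Av_le _ _ _) hκ
  refine le_trans h7 ?_
  have i1 : Integrable (fun x => κ * (Complex.normSq (A x) -
      (A x * sg σ (A x) * sg τ (A x)).re)) ν :=
    integrable_of_contR ν (continuous_const.mul (cN.sub (Complex.continuous_re.comp cP)))
  have i2 : Integrable (fun x => Complex.normSq (A x) - (A x).re) ν :=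
    integrable_of_contR ν (cN.sub cRe)
  have i3 : Integrable (fun x => κ * (Complex.normSq (A x) -
      (A x * sg σ (A x) * sg τ (A x)).re) + (Complex.normSq (A x) - (A x).re)) ν := i1.add i2
  have i4 : Integrable (fun x => (A x * sg σ (A x) * sg τ (A x)).re) ν :=
    integrable_of_contR ν (Complex.continuous_re.comp cP)
  rw [integral_add i3 (integrable_of_contR ν continuous_const), integral_add i1 i2,
    integral_const_mul, integral_sub (integrable_of_contR ν cN) i4,
    integral_sub (integrable_of_contR ν cN) (integrable_of_contR ν cRe), h5, h6]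
  simp only [integral_const, probReal_univ, smul_eq_mul, one_mul]
  have h8 : κ * (1 / ↑L + (1 - 1 / ↑L) * c.re - ∫ x, (A x * sg σ (A x) * sg τ (A x)).re ∂ν) ≤
      κ * (2 / L + 4 / s) := by
    apply mul_le_mul_of_nonneg_left _ (by linarith)
    linarith
  change κ * (1 / ↑L + (1 - 1 / ↑L) * c.re - ∫ x, (A x * sg σ (A x) * sg τ (A x)).re ∂ν) + _ + _ ≤ _
  linarith

end

end Pool.Agent.H237.Digits
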