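import Mathlib
import Pool.Agent.H237.Digits.Quad

/-!
# The first coefficient is the mass near zero
-/

namespace Pool.Agent.H237.Digits

open MeasureTheory Set Filter Topology Pool.Agent.H237.Primes Pool.Agent.H237.Gap

lemma norm_two_smul {y : UnitAddCircle} (hy : ‖y‖ ≤ 1 / 4) : ‖2 • y‖ = 2 * ‖y‖ := by
  obtain ⟨t, rfl, ht⟩ := exists_rep y
  rw [← ht] at hy ⊢
  have e1 : (2 • ((t : ℝ) : UnitAddCircle)) = ((2 * t : ℝ) : UnitAddCircle) := by
    rw [← AddCircle.coe_nsmul, nsmul_eq_mul]
    norm_num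
  rw [e1]
  have h2 : |2 * t| ≤ 1 / 2 := by
    rw [abs_mul, abs_of_pos (by norm_num : (0 : ℝ) < 2)]
    linarith
  rw [(AddCircle.norm_coe_eq_abs_iff (1 : ℝ) (by norm_num)).mpr (by simpa using h2), abs_mul,
    abs_of_pos (by norm_num : (0 : ℝ) < 2)]

/-- A point which is not very close to `0` is soon moved away by doubling. -/
lemma exists_far : ∀ m : ℕ, 1 ≤ m → ∀ y : UnitAddCircle, (1 / 2 : ℝ) ^ (m + 2) ≤ ‖y‖ →
    ∃ l < m, 1 / 8 ≤ ‖2 ^ l • y‖ := by
  intro m
  induction m with
  | zero => intro h; omega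
  | succ m ih =>
    intro _ y hy
    rcases le_or_gt (1 / 8) ‖y‖ with h | h
    · exact ⟨0, by omega, by simpa using h⟩
    · rcases Nat.eq_zero_or_pos m with h0 | h0
      · subst h0
        norm_num at hy
        linarith
      · have h2 : ‖2 • y‖ = 2 * ‖y‖ := norm_two_smul (by linarith)
        have h3 : (1 / 2 : ℝ) ^ (m + 2) ≤ ‖2 • y‖ := by
          rw [h2]
          have : (1 / 2 : ℝ) ^ (m + 1 + 2) = (1 / 2) ^ (m + 2) * (1 / 2) := by
            rw [show m + 1 + 2 = m + 2 + 1 by ring, pow_succ]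
          rw [this] at hy
          linarith
        obtain ⟨l, hl, hl2⟩ := ih h0 (2 • y) h3
        refine ⟨l + 1, by omega, ?_⟩
        rw [pow_succ, mul_smul]
        exact hl2

section

variable {ν : Measure UnitAddCircle} [IsProbabilityMeasure ν] {L : ℕ}

/-- The set where the average over the middle block is close to `1`. -/
def GG (L : ℕ) (δ : ℝ) : Set UnitAddCircle := {x | ‖1 - Av L (bl L 1) x‖ ≤ δ}

lemma measurableSet_GG (L : ℕ) (δ : ℝ) : MeasurableSet (GG L δ) :=
  (isClosed_le (continuous_const.sub (continuous_Av _ _)).norm continuous_const).measurableSet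

lemma half_normSq {z : ℂ} (hz : ‖z‖ ≤ 1) : ‖1 - z‖ ^ 2 / 2 ≤ 1 - z.re := by
  rw [← Complex.normSq_eq_norm_sq]
  have h1 : Complex.normSq (1 - z) = 1 - 2 * z.re + Complex.normSq z := by
    rw [Complex.normSq_sub]
    simp
    ring
  have h2 : Complex.normSq z ≤ 1 := by
    rw [Complex.normSq_eq_norm_sq]
    nlinarith [norm_nonneg z]
  linarith

lemma near_one {c : ℂ} {δ q : ℝ} (hδ : 0 < δ) (hc : ∫ x, Av L (bl L 1) x ∂ν = c)
    (hq : ∫ x, Complex.normSq (Av L (bl L 1) x) * (1 - (Av L (bl L 1) x).re) ∂ν ≤ q) :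
    ‖c - (ν.real (GG L δ) : ℂ)‖ ≤ δ + 2 / δ ^ 4 * q := by
  set A := Av L (bl L 1) with hA
  have cA : Continuous A := continuous_Av _ _
  have cN : Continuous fun x => Complex.normSq (A x) * (1 - (A x).re) :=
    (Complex.continuous_normSq.comp cA).mul (continuous_const.sub (Complex.continuous_re.comp cA))
  have e1 : (ν.real (GG L δ) : ℂ) = ∫ x, (GG L δ).indicator (fun _ => (1 : ℂ)) x ∂ν := by
    rw [integral_indicator_const _ (measurableSet_GG L δ)]
    simp
  have i1 : Integrable (fun x => (GG L δ).indicator (fun _ => (1 : ℂ)) x) ν :=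
    (integrable_const _).indicator (measurableSet_GG L δ)
  have i2 : Integrable (fun x => 2 / δ ^ 4 * (Complex.normSq (A x) * (1 - (A x).re))) ν :=
    integrable_of_contR ν (continuous_const.mul cN)
  rw [← hc, e1, ← integral_sub (integrable_of_cont ν cA) i1]
  refine le_trans (norm_integral_le_integral_norm _) ?_
  have h1 : ∫ x, ‖A x - (GG L δ).indicator (fun _ => (1 : ℂ)) x‖ ∂ν ≤
      ∫ x, (δ + 2 / δ ^ 4 * (Complex.normSq (A x) * (1 - (A x).re))) ∂ν := by
    apply integral_mono ((integrable_of_cont ν cA).sub i1).norm ((integrable_const _).add i2)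
    intro x
    change ‖A x - (GG L δ).indicator (fun _ => (1 : ℂ)) x‖ ≤
      δ + 2 / δ ^ 4 * (Complex.normSq (A x) * (1 - (A x).re))
    have hAx : ‖A x‖ ≤ 1 := norm_Av_le _ _ _
    have hhalf := half_normSq hAx
    have hre : 0 ≤ 1 - (A x).re := le_trans (by positivity) hhalf
    have hn : 0 ≤ Complex.normSq (A x) := Complex.normSq_nonneg _
    have hnn : 0 ≤ 2 / δ ^ 4 * (Complex.normSq (A x) * (1 - (A x).re)) := by positivity
    by_cases hx : x ∈ GG L δ
    · rw [Set.indicator_of_mem hx, ← norm_neg, neg_sub]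
      have : ‖1 - A x‖ ≤ δ := hx
      linarith
    · rw [Set.indicator_of_notMem hx, sub_zero]
      have hx' : δ < ‖1 - A x‖ := lt_of_not_ge hx
      rcases le_or_gt ‖A x‖ δ with h | h
      · linarith
      · have a1 : δ ^ 2 ≤ Complex.normSq (A x) := by
          rw [Complex.normSq_eq_norm_sq]
          exact pow_le_pow_left₀ hδ.le h.le 2
        have a2 : δ ^ 2 / 2 ≤ 1 - (A x).re := by
          have := pow_le_pow_left₀ hδ.le hx'.le 2
          linarith
        have a3 : δ ^ 2 * (δ ^ 2 / 2) ≤ Complex.normSq (A x) * (1 - (A x).re) :=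
          mul_le_mul a1 a2 (by positivity) hn
        have a4 : 1 ≤ 2 / δ ^ 4 * (Complex.normSq (A x) * (1 - (A x).re)) := by
          calc (1 : ℝ) = 2 / δ ^ 4 * (δ ^ 2 * (δ ^ 2 / 2)) := by field_simp
            _ ≤ _ := mul_le_mul_of_nonneg_left a3 (by positivity)
        linarith
  refine le_trans h1 ?_
  rw [integral_add (integrable_const _) i2, integral_const_mul]
  simp only [integral_const, probReal_univ, smul_eq_mul, one_mul]
  have : 2 / δ ^ 4 * ∫ x, Complex.normSq (A x) * (1 - (A x).re) ∂ν ≤ 2 / δ ^ 4 * q :=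
    mul_le_mul_of_nonneg_left hq (by positivity)
  linarith

lemma fourier_pow_two (k : ℕ) (x : UnitAddCircle) :
    (fourier ((2 : ℤ) ^ k) x : ℂ) = fourier 1 (2 ^ k • x) := by
  rw [fourier_nsmul]
  congr 2
  push_cast
  ring

lemma near_two (h2 : Inv ν 2) {m : ℕ} (hm : 1 ≤ m) (hmL : m < L) {δ : ℝ} (hδ : 0 < δ) :
    (L - m : ℝ) * ν.real (GG L δ) ≤ (L - m) * g ν ((1 / 2) ^ (m + 2)) + 8 * m * δ * L := by
  set ρ : ℝ := (1 / 2) ^ (m + 2) with hρ
  have hL0 : 0 < L := by omega
  have hLR : (0 : ℝ) < L := by exact_mod_cast hL0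
  have hcast : ((L - m : ℕ) : ℝ) = L - m := by
    rw [Nat.cast_sub hmL.le]
  set S : ℕ → Set UnitAddCircle := fun i => {x | ‖2 ^ (L + i) • x‖ < ρ} with hS
  have hSm : ∀ i, MeasurableSet (S i) := fun i => Pool.Agent.H237.Gap.measurableSet_lt _ _
  have key : ∀ x, (L - m : ℝ) * (GG L δ).indicator (fun _ => (1 : ℝ)) x ≤
      ∑ i ∈ Finset.range (L - m), (S i).indicator (fun _ => (1 : ℝ)) x +
        (GG L δ).indicator (fun _ => 8 * m * δ * L) x := by
    intro x
    have hnn : 0 ≤ ∑ i ∈ Finset.range (L - m), (S i).indicator (fun _ => (1 : ℝ)) x :=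
      Finset.sum_nonneg fun i _ => Set.indicator_nonneg (fun _ _ => zero_le_one) _
    by_cases hx : x ∈ GG L δ
    · rw [Set.indicator_of_mem hx, Set.indicator_of_mem hx, mul_one]
      -- the sum of the defects
      set d : ℕ → ℝ := fun i => 1 - (fourier 1 (2 ^ (L + i) • x) : ℂ).re with hd
      have hd0 : ∀ i, 0 ≤ d i := by
        intro i
        have := one_sub_re (2 ^ (L + i) • x)
        have h3 : 0 ≤ 8 * ‖2 ^ (L + i) • x‖ ^ 2 := by positivity
        exact le_trans h3 this
      have hsum : ∑ i ∈ Finset.range L, d i ≤ δ * L := by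
        have hx' : ‖1 - Av L (bl L 1) x‖ ≤ δ := hx
        have h3 : (1 - Av L (bl L 1) x).re ≤ δ :=
          le_trans (le_trans (le_abs_self _) (Complex.abs_re_le_norm _)) hx'
        have h4 : (1 - Av L (bl L 1) x).re = (L : ℝ)⁻¹ * ∑ i ∈ Finset.range L, d i := by
          unfold Av bl
          rw [Complex.sub_re, Complex.one_re]
          have : ((L : ℂ)⁻¹) = (((L : ℝ)⁻¹ : ℝ) : ℂ) := by push_cast; rfl
          rw [this, Complex.re_ofReal_mul, Complex.re_sum]
          simp only [hd, Finset.sum_sub_distrib]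
          rw [Finset.sum_const, Finset.card_range, nsmul_eq_mul, mul_one, mul_sub,
            inv_mul_cancel₀ hLR.ne']
          congr 2
          apply Finset.sum_congr rfl
          intro i _
          rw [one_mul, fourier_pow_two]
        rw [h4] at h3
        rw [inv_mul_le_iff₀ hLR] at h3
        linarith
      -- far points
      have hfar : ∀ i ∈ Finset.range (L - m), 1 - (S i).indicator (fun _ => (1 : ℝ)) x ≤
          ∑ l ∈ Finset.range m, 8 * d (i + l) := by
        intro i _
        have hnn2 : 0 ≤ ∑ l ∈ Finset.range m, 8 * d (i + l) :=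
          Finset.sum_nonneg fun l _ => by have := hd0 (i + l); linarith
        by_cases hi : x ∈ S i
        · rw [Set.indicator_of_mem hi]
          linarith
        · rw [Set.indicator_of_notMem hi, sub_zero]
          have hi' : ρ ≤ ‖2 ^ (L + i) • x‖ := le_of_not_gt hi
          obtain ⟨l, hl, hl2⟩ := exists_far m hm _ hi'
          have h5 : 1 ≤ 8 * d (i + l) := by
            have h6 := one_sub_re (2 ^ (L + (i + l)) • x)
            have h7 : 2 ^ (L + (i + l)) • x = 2 ^ l • 2 ^ (L + i) • x := by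
              rw [← mul_smul, ← pow_add]
              congr 2
              ring
            rw [← h7] at hl2
            have h8 : (1 / 8 : ℝ) ^ 2 ≤ ‖2 ^ (L + (i + l)) • x‖ ^ 2 :=
              pow_le_pow_left₀ (by norm_num) hl2 2
            change 1 ≤ 8 * (1 - (fourier 1 (2 ^ (L + (i + l)) • x) : ℂ).re)
            linarith
          refine le_trans h5 ?_
          exact Finset.single_le_sum (f := fun l => 8 * d (i + l))
            (fun l _ => mul_nonneg (by norm_num) (hd0 (i + l))) (Finset.mem_range.mpr hl)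
      have hbound : ∑ i ∈ Finset.range (L - m), ∑ l ∈ Finset.range m, 8 * d (i + l) ≤
          8 * m * δ * L := by
        rw [Finset.sum_comm]
        have h5 : ∀ l ∈ Finset.range m, ∑ i ∈ Finset.range (L - m), 8 * d (i + l) ≤
            8 * (δ * L) := by
          intro l hl
          rw [Finset.mem_range] at hl
          rw [← Finset.mul_sum]
          apply mul_le_mul_of_nonneg_left _ (by norm_num)
          refine le_trans ?_ hsum
          have h6 : ∑ i ∈ Finset.range (L - m), d (i + l) =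
              ∑ i ∈ (Finset.range (L - m)).map (addRightEmbedding l), d i := by
            rw [Finset.sum_map]
            rfl
          rw [h6]
          apply Finset.sum_le_sum_of_subset_of_nonneg
          · intro i hi
            rw [Finset.mem_map] at hi
            obtain ⟨i', hi', rfl⟩ := hi
            rw [Finset.mem_range] at hi' ⊢
            simp only [addRightEmbedding_apply]
            omega
          · intro i _ _
            exact hd0 i
        refine le_trans (Finset.sum_le_sum h5) ?_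
        rw [Finset.sum_const, Finset.card_range, nsmul_eq_mul]
        apply le_of_eq
        ring
      have h6 := Finset.sum_le_sum hfar
      rw [Finset.sum_sub_distrib, Finset.sum_const, Finset.card_range, nsmul_eq_mul, mul_one,
        hcast] at h6
      linarith
    · rw [Set.indicator_of_notMem hx, Set.indicator_of_notMem hx, mul_zero, add_zero]
      exact hnn
  have i0 : Integrable (fun x => (GG L δ).indicator (fun _ => (1 : ℝ)) x) ν :=
    (integrable_const _).indicator (measurableSet_GG L δ)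
  have i1 : Integrable (fun x => (GG L δ).indicator (fun _ => 8 * m * δ * L) x) ν :=
    (integrable_const _).indicator (measurableSet_GG L δ)
  have i2 : ∀ i, Integrable (fun x => (S i).indicator (fun _ => (1 : ℝ)) x) ν :=
    fun i => (integrable_const _).indicator (hSm i)
  have i3 : Integrable (fun x => ∑ i ∈ Finset.range (L - m),
      (S i).indicator (fun _ => (1 : ℝ)) x) ν := integrable_finsetSum _ fun i _ => i2 i
  have h3 := integral_mono (i0.const_mul (L - m : ℝ)) (i3.add i1) key
  rw [integral_const_mul, integral_indicator_const _ (measurableSet_GG L δ)] at h3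
  have e2 : ∫ x, ((fun x => ∑ i ∈ Finset.range (L - m), (S i).indicator (fun _ => (1 : ℝ)) x) +
      fun x => (GG L δ).indicator (fun _ => 8 * m * δ * L) x) x ∂ν =
      ∑ i ∈ Finset.range (L - m), ν.real (S i) + ν.real (GG L δ) * (8 * m * δ * L) := by
    change ∫ x, ((∑ i ∈ Finset.range (L - m), (S i).indicator (fun _ => (1 : ℝ)) x) +
      (GG L δ).indicator (fun _ => 8 * m * δ * L) x) ∂ν = _
    rw [integral_add i3 i1, integral_finsetSum _ fun i _ => i2 i,
      integral_indicator_const _ (measurableSet_GG L δ)]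
    congr 1
    apply Finset.sum_congr rfl
    intro i _
    rw [integral_indicator_const _ (hSm i)]
    simp
  rw [e2] at h3
  have e3 : ∀ i ∈ Finset.range (L - m), ν.real (S i) = g ν ρ := by
    intro i _
    have := g_inv (h2.pow (L + i)) ρ
    rw [← this]
  rw [Finset.sum_congr rfl e3, Finset.sum_const, Finset.card_range, nsmul_eq_mul, hcast] at h3
  simp only [smul_eq_mul, mul_one] at h3
  refine le_trans h3 ?_
  have h6 : ν.real (GG L δ) ≤ 1 := measureReal_le_one
  have h7 : 0 ≤ 8 * m * δ * L := by positivity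
  have h8 : ν.real (GG L δ) * (8 * m * δ * L) ≤ 1 * (8 * m * δ * L) :=
    mul_le_mul_of_nonneg_right h6 h7
  linarith

lemma near_three (hL0 : 0 < L) {δ r : ℝ} (hr : 2 * Real.pi * 2 ^ (2 * L) * r ≤ δ) :
    g ν r ≤ ν.real (GG L δ) := by
  have hLR : (0 : ℝ) < L := by exact_mod_cast hL0
  unfold g
  apply measureReal_mono _ (measure_ne_top _ _)
  intro x hx
  have hx' : ‖x‖ < r := hx
  change ‖1 - Av L (bl L 1) x‖ ≤ δ
  have e1 : 1 - Av L (bl L 1) x = (L : ℂ)⁻¹ * ∑ i ∈ Finset.range L,
      (1 - (fourier (bl L 1 i) x : ℂ)) := by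
    unfold Av
    rw [Finset.sum_sub_distrib, Finset.sum_const, Finset.card_range, nsmul_eq_mul, mul_one, mul_sub,
      inv_mul_cancel₀ (by exact_mod_cast hL0.ne')]
  rw [e1, norm_mul, norm_inv, Complex.norm_natCast, inv_mul_le_iff₀ hLR]
  refine le_trans (norm_sum_le _ _) ?_
  have h1 : ∀ i ∈ Finset.range L, ‖1 - (fourier (bl L 1 i) x : ℂ)‖ ≤ δ := by
    intro i hi
    rw [Finset.mem_range] at hi
    rw [← norm_neg, neg_sub]
    have h2 := norm_fourier_sub_one (2 ^ (1 * L + i)) x
    have e2 : (((2 ^ (1 * L + i) : ℕ) : ℤ)) = bl L 1 i := by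
      unfold bl; push_cast; rfl
    rw [e2] at h2
    refine le_trans h2 (le_trans ?_ hr)
    have h3 : ((2 ^ (1 * L + i) : ℕ) : ℝ) ≤ 2 ^ (2 * L) := by
      push_cast
      exact pow_le_pow_right₀ (by norm_num) (by omega)
    have h4 : 0 ≤ ‖x‖ := norm_nonneg _
    calc 2 * Real.pi * ((2 ^ (1 * L + i) : ℕ) : ℝ) * ‖x‖ ≤ 2 * Real.pi * 2 ^ (2 * L) * r := by
          have := Real.pi_pos
          gcongr
      _ = _ := rfl
  refine le_trans (Finset.sum_le_sum h1) ?_
  rw [Finset.sum_const, Finset.card_range, nsmul_eq_mul]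

/-- The first coefficient is the mass near zero. -/
theorem near {K : ℕ} {σ τ : ℤ} {c : ℂ} (h : Coef ν K σ τ c) (h2 : Inv ν 2) (hL : 3 * L ≤ K)
    {m : ℕ} (hm : 1 ≤ m) (hmL : 2 * m ≤ L) {s : ℝ} (hs : 0 < s) (hsL : s * s = L)
    {κ : ℝ} (hκ : 8 ≤ κ) {δ r ε : ℝ} (hδ : 0 < δ) (hr : 2 * Real.pi * 2 ^ (2 * L) * r ≤ δ)
    (hε : g ν ((1 / 2) ^ (m + 2)) - g ν r ≤ ε) :
    ‖c - (g ν r : ℂ)‖ ≤ δ + 2 / δ ^ 4 * (κ * (2 / L + 4 / s) + 2 / L + 1 / (2 * (κ - 3))) +
      16 * m * δ + ε := by
  have hL0 : 0 < L := by omega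
  have hLR : (0 : ℝ) < L := by exact_mod_cast hL0
  have hmLR : (2 : ℝ) * m ≤ L := by exact_mod_cast hmL
  have hmR : (1 : ℝ) ≤ m := by exact_mod_cast hm
  have hc : ∫ x, Av L (bl L 1) x ∂ν = c := by
    apply integral_single ν hL0
    intro i hi
    exact h.one _ (by omega)
  have h3 := near_one hδ hc (quad h hL0 hL hs hsL hκ)
  have h4 := near_two (L := L) h2 hm (by omega) hδ
  have h5 := near_three (ν := ν) hL0 hr
  have h6 : ν.real (GG L δ) ≤ g ν ((1 / 2) ^ (m + 2)) + 16 * m * δ := by
    have h7 : (0 : ℝ) < L - m := by linarith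
    have h8 : (L - m : ℝ) * ν.real (GG L δ) ≤ (L - m) * (g ν ((1 / 2) ^ (m + 2)) + 16 * m * δ) := by
      refine le_trans h4 ?_
      have h9 : 8 * m * δ * L ≤ (L - m) * (16 * m * δ) := by
        have h10 : 0 ≤ 8 * m * δ := by positivity
        nlinarith
      linarith
    exact le_of_mul_le_mul_left h8 h7
  have h7 : ‖(ν.real (GG L δ) : ℂ) - (g ν r : ℂ)‖ ≤ 16 * m * δ + ε := by
    rw [← Complex.ofReal_sub, Complex.norm_real, Real.norm_eq_abs, abs_of_nonneg (by linarith)]
    linarith
  have h8 : c - (g ν r : ℂ) = (c - (ν.real (GG L δ) : ℂ)) + ((ν.real (GG L δ) : ℂ) - (g ν r : ℂ)) := by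
    ring
  rw [h8]
  refine le_trans (norm_add_le _ _) ?_
  linarith

end

end Pool.Agent.H237.Digits
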