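import Mathlib
import Pool.Agent.H237.Primes.Assemble

/-!
# Packing with the multipliers `2 ^ p - 1`
-/

namespace Pool.Agent.H237.Digits

open MeasureTheory Set Filter Topology Pool.Agent.H237.Primes Pool.Agent.H237.Gap

lemma coprime_mers {p q : ℕ} (hp : p.Prime) (hq : q.Prime) (h : p ≠ q) :
    Nat.Coprime (2 ^ p - 1) (2 ^ q - 1) := by
  unfold Nat.Coprime
  rw [Nat.pow_sub_one_gcd_pow_sub_one, (Nat.coprime_primes hp hq).mpr h]
  norm_num

/-- The simple packing bound. -/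
lemma single {ι : Type*} [Fintype ι] (ν : Measure UnitAddCircle) [IsProbabilityMeasure ν]
    {u : ι → ℕ} (hu : ∀ i, 0 < u i) (hco : ∀ i j, i ≠ j → Nat.Coprime (u i) (u j))
    (hinv : ∀ i, Inv ν (u i)) {r v : ℝ} (hr0 : 0 < r) (hr : ∀ i, 2 * r * u i ≤ 1) (hv : 0 < v)
    (hvu : ∀ i, v ≤ u i) :
    (Fintype.card ι : ℝ) * (g ν r - g ν (r / v)) ≤ 1 := by
  classical
  set E : ι → Set UnitAddCircle := fun i => {x | ‖u i • x‖ < r} \ {x | ‖x‖ < r / u i} with hE
  have m1 : ∀ i, MeasurableSet {x : UnitAddCircle | ‖u i • x‖ < r} :=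
    fun i => Pool.Agent.H237.Gap.measurableSet_lt _ _
  have m2 : ∀ t : ℝ, MeasurableSet {x : UnitAddCircle | ‖x‖ < t} := by
    intro t
    have := Pool.Agent.H237.Gap.measurableSet_lt 1 t
    simpa using this
  have hdisj : Pairwise (Function.onFun Disjoint E) := by
    intro i j hij
    rw [Function.onFun, Set.disjoint_left]
    rintro x ⟨h1, h2⟩ ⟨h3, _⟩
    apply h2
    have huR : (0 : ℝ) < u i := by exact_mod_cast hu i
    have hle : r * (u j : ℝ) + r * ((u i * 1 : ℕ) : ℝ) ≤ 1 := by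
      have a1 := hr i
      have a2 := hr j
      push_cast
      linarith
    have h4 := near_div (a := u i) (W := 1) (V' := u j) (hu i) one_pos (hco i j hij) hle (hu j)
      (y := x) (by simpa using h1) h3
    simpa using h4
  have hmass : ∀ i, g ν r - g ν (r / v) ≤ ν.real (E i) := by
    intro i
    have huR : (0 : ℝ) < u i := by exact_mod_cast hu i
    have hsub : {x : UnitAddCircle | ‖x‖ < r / u i} ⊆ {x | ‖u i • x‖ < r} := by
      intro x hx
      have hx' : ‖x‖ < r / u i := hx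
      rw [lt_div_iff₀ huR] at hx'
      have := norm_nsmul_le (n := u i) (a := x)
      exact lt_of_le_of_lt this (by linarith)
    rw [hE]
    simp only
    rw [measureReal_sdiff hsub (m2 _), g_inv (hinv i)]
    have h3 : g ν (r / u i) ≤ g ν (r / v) := by
      apply g_mono
      exact div_le_div_of_nonneg_left hr0.le hv (hvu i)
    have h4 : ν.real {x : UnitAddCircle | ‖x‖ < r / u i} = g ν (r / u i) := rfl
    rw [h4]
    linarith
  have h1 : ∑ i, ν.real (E i) ≤ 1 := by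
    rw [← measureReal_biUnion_finset (s := Finset.univ) (f := E)]
    · exact measureReal_le_one
    · intro i _ j _ hij
      exact hdisj hij
    · intro i _
      exact (m1 i).diff (m2 _)
  calc (Fintype.card ι : ℝ) * (g ν r - g ν (r / v)) = ∑ _i : ι, (g ν r - g ν (r / v)) := by
        rw [Finset.sum_const, Finset.card_univ, nsmul_eq_mul]
    _ ≤ ∑ i, ν.real (E i) := Finset.sum_le_sum fun i _ => hmass i
    _ ≤ 1 := h1

lemma two_pow_sub_pos {p : ℕ} (hp : p.Prime) : 0 < 2 ^ p - 1 := by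
  have : 2 ^ 1 ≤ 2 ^ p := Nat.pow_le_pow_right (by norm_num) hp.one_lt.le
  omega

/-- One step with a ratio `6 / 5` of the logarithms. -/
lemma fine_step (ν : Measure UnitAddCircle) [IsProbabilityMeasure ν] {K : ℕ}
    (hinv : ∀ p : ℕ, p.Prime → p ≤ K → Inv ν (2 ^ p - 1)) {H : ℝ} (hH : 20 ≤ H)
    (hHK : H / Real.log 2 - 1 ≤ K) :
    ((PS (H / Real.log 2 - 1)).card : ℝ) * (g ν (Real.exp (-H)) - g ν (Real.exp (-(6 / 5 * H)))) ≤ 1 := by
  set z := H / Real.log 2 - 1 with hz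
  have hl2 : 0.6931471803 < Real.log 2 := Real.log_two_gt_d9
  have hl2' : Real.log 2 < 0.6931471808 := Real.log_two_lt_d9
  have hl0 : 0 < Real.log 2 := by linarith
  have hzH : z * Real.log 2 = H - Real.log 2 := by
    rw [hz]; field_simp
  have hz0 : 0 ≤ z := by
    rw [hz, sub_nonneg, le_div_iff₀ hl0]
    linarith
  have key := single ν (ι := PS z) (u := fun p => 2 ^ (p : ℕ) - 1)
    (fun p => two_pow_sub_pos (mem_PS hz0 p.2).1)
    (fun p q hpq => coprime_mers (mem_PS hz0 p.2).1 (mem_PS hz0 q.2).1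
      (fun h => hpq (Subtype.ext h)))
    (fun p => hinv p (mem_PS hz0 p.2).1 (by
      have := (mem_PS hz0 p.2).2.2
      exact_mod_cast le_trans this hHK))
    (r := Real.exp (-H)) (v := Real.exp (1 / 5 * H)) (Real.exp_pos _) ?_ (Real.exp_pos _) ?_
  · rw [Fintype.card_coe, ← Real.exp_sub] at key
    have e : -H - 1 / 5 * H = -(6 / 5 * H) := by ring
    rw [e] at key
    exact key
  · intro p
    have h1 := (mem_PS hz0 p.2).2.2
    have h2 : (((2 ^ (p : ℕ) - 1 : ℕ)) : ℝ) ≤ (2 : ℝ) ^ (p : ℕ) := by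
      have : (2 ^ (p : ℕ) - 1 : ℕ) ≤ 2 ^ (p : ℕ) := Nat.sub_le _ _
      exact_mod_cast this
    have h3 : (2 : ℝ) ^ (p : ℕ) ≤ Real.exp (H - Real.log 2) := by
      rw [← Real.exp_log (show (0 : ℝ) < 2 by norm_num), ← Real.exp_nat_mul]
      simp only [Real.exp_log (show (0 : ℝ) < 2 by norm_num)]
      apply Real.exp_le_exp.mpr
      rw [← hzH]
      exact mul_le_mul_of_nonneg_right h1 hl0.le
    rw [Real.exp_sub, Real.exp_log (by norm_num)] at h3
    have h4 : Real.exp (-H) * Real.exp H = 1 := by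
      rw [← Real.exp_add]; simp
    have h5 : (((2 ^ (p : ℕ) - 1 : ℕ)) : ℝ) ≤ Real.exp H / 2 := le_trans h2 h3
    calc 2 * Real.exp (-H) * (((2 ^ (p : ℕ) - 1 : ℕ)) : ℝ) ≤ 2 * Real.exp (-H) * (Real.exp H / 2) :=
          mul_le_mul_of_nonneg_left h5 (by positivity)
      _ = Real.exp (-H) * Real.exp H := by ring
      _ ≤ 1 := h4.le
  · intro p
    have h1 := (mem_PS hz0 p.2).2.1
    have hp := (mem_PS hz0 p.2).1
    have h2 : ((2 : ℝ) ^ (p : ℕ)) / 2 ≤ (((2 ^ (p : ℕ) - 1 : ℕ)) : ℝ) := by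
      have h3 : 1 ≤ 2 ^ (p : ℕ) := Nat.one_le_two_pow
      have h4 : (2 : ℝ) ^ 1 ≤ 2 ^ (p : ℕ) := pow_le_pow_right₀ (by norm_num) hp.one_lt.le
      push_cast [Nat.cast_sub h3]
      linarith
    refine le_trans ?_ h2
    have h3 : Real.exp (z / 4 * Real.log 2) ≤ (2 : ℝ) ^ (p : ℕ) := by
      rw [← Real.exp_log (show (0 : ℝ) < 2 by norm_num), ← Real.exp_nat_mul]
      simp only [Real.exp_log (show (0 : ℝ) < 2 by norm_num)]
      apply Real.exp_le_exp.mpr
      exact mul_le_mul_of_nonneg_right h1.le hl0.le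
    have h4 : Real.exp (1 / 5 * H) * 2 ≤ Real.exp (z / 4 * Real.log 2) := by
      nth_rewrite 1 [← Real.exp_log (show (0 : ℝ) < 2 by norm_num)]
      rw [← Real.exp_add]
      apply Real.exp_le_exp.mpr
      have : z / 4 * Real.log 2 = (H - Real.log 2) / 4 := by rw [← hzH]; ring
      rw [this]
      linarith
    linarith

/-- Many primes between `z / 4` and `z`. -/
lemma many_primes' : ∀ᶠ z : ℝ in atTop, z ^ (4 / 5 : ℝ) ≤ (PS z).card := by
  have h1 : ∀ᶠ z : ℝ in atTop, Real.log z ≤ z ^ (1 / 8 : ℝ) := by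
    have h2 := (isLittleO_log_rpow_atTop (show (0 : ℝ) < 1 / 8 by norm_num)).def
      (show (0 : ℝ) < 1 by norm_num)
    filter_upwards [h2, eventually_ge_atTop 1] with z hz hz1
    rw [Real.norm_of_nonneg (Real.log_nonneg hz1), Real.norm_of_nonneg (by positivity)] at hz
    linarith
  have h3 : ∀ᶠ z : ℝ in atTop, 4 ≤ z ^ (1 / 8 : ℝ) :=
    (tendsto_rpow_atTop (by norm_num : (0 : ℝ) < 1 / 8)).eventually_ge_atTop 4
  have h4 : ∀ᶠ z : ℝ in atTop, 4 ≤ z ^ (3 / 40 : ℝ) :=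
    (tendsto_rpow_atTop (by norm_num : (0 : ℝ) < 3 / 40)).eventually_ge_atTop 4
  filter_upwards [h1, h3, h4, eventually_ge_atTop 2] with z hz1 hz2 hz4 hz3
  set w := z ^ (1 / 8 : ℝ) with hw
  have hw0 : 0 < w := by positivity
  have hz8 : z = w ^ 8 := by
    rw [hw, ← Real.rpow_natCast, ← Real.rpow_mul (by linarith)]
    norm_num
  have hsq : Real.sqrt z = w ^ 4 := by
    rw [hz8, show w ^ 8 = (w ^ 4) ^ 2 by ring, Real.sqrt_sq (by positivity)]
  have hlogz : 0 < Real.log z := Real.log_pos (by linarith)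
  have ht1 := Chebyshev.theta_ge' (x := z) (by linarith)
  have ht2 := Chebyshev.theta_le_log4_mul_x (x := z / 4) (by linarith)
  have ht3 := theta_sub (z := z) (by linarith)
  have hl4 : Real.log 4 = 2 * Real.log 2 := by
    rw [show (4 : ℝ) = 2 ^ 2 by norm_num, Real.log_pow]; norm_num
  have hl2 : 0.6931471803 < Real.log 2 := Real.log_two_gt_d9
  have hl2' : Real.log 2 < 0.6931471808 := Real.log_two_lt_d9
  have hlz2 : Real.log (z + 2) ≤ w + 1 := by
    have : Real.log (z + 2) ≤ Real.log (2 * z) := Real.log_le_log (by linarith) (by linarith)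
    rw [Real.log_mul (by norm_num) (by linarith)] at this
    linarith
  rw [hsq] at ht1
  have hstep : z / 4 ≤ (PS z).card * Real.log z := by
    refine le_trans ?_ ht3
    have e2 : 2 * w ^ 4 * Real.log z ≤ 2 * w ^ 4 * w := by gcongr
    rw [hl4] at ht2
    have e3 : (z - 1) * Real.log 2 - (2 * Real.log 2) * (z / 4) - (w + 1) - 2 * w ^ 4 * w ≤
        Chebyshev.theta z - Chebyshev.theta (z / 4) := by linarith
    refine le_trans ?_ e3
    have e4 : (z - 1) * Real.log 2 - (2 * Real.log 2) * (z / 4) = Real.log 2 * (w ^ 8 / 2 - 1) := by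
      rw [hz8]; ring
    rw [e4, hz8]
    have e5 : 0.6931471803 * (w ^ 8 / 2 - 1) ≤ Real.log 2 * (w ^ 8 / 2 - 1) := by
      apply mul_le_mul_of_nonneg_right hl2.le
      have : (4 : ℝ) ^ 8 ≤ w ^ 8 := pow_le_pow_left₀ (by norm_num) hz2 8
      linarith
    have e6 : 64 * w ^ 5 ≤ w ^ 8 := by
      have : (4 : ℝ) ^ 3 ≤ w ^ 3 := pow_le_pow_left₀ (by norm_num) hz2 3
      calc 64 * w ^ 5 ≤ w ^ 3 * w ^ 5 := by
            apply mul_le_mul_of_nonneg_right _ (by positivity)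
            linarith
        _ = w ^ 8 := by ring
    have e8 : w ≤ w ^ 5 := by
      calc w = w ^ 1 := (pow_one w).symm
        _ ≤ w ^ 5 := pow_le_pow_right₀ (by linarith) (by norm_num)
    have e9 : 1 ≤ w := by linarith
    have e11 : w ^ 4 * w = w ^ 5 := by ring
    nlinarith
  -- divide
  have h5 : z / 4 ≤ (PS z).card * z ^ (1 / 8 : ℝ) := by
    refine le_trans hstep ?_
    exact mul_le_mul_of_nonneg_left hz1 (Nat.cast_nonneg _)
  have hzpos : 0 < z := by linarith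
  have e1 : z ^ (4 / 5 : ℝ) * z ^ (1 / 8 : ℝ) * z ^ (3 / 40 : ℝ) = z := by
    have h9 : (4 / 5 + 1 / 8 + 3 / 40 : ℝ) = 1 := by norm_num
    rw [← Real.rpow_add hzpos, ← Real.rpow_add hzpos, h9, Real.rpow_one]
  have h6 : z ^ (4 / 5 : ℝ) * z ^ (1 / 8 : ℝ) ≤ z / 4 := by
    have h7 : 0 ≤ z ^ (4 / 5 : ℝ) * z ^ (1 / 8 : ℝ) := by positivity
    have h8 : z ^ (4 / 5 : ℝ) * z ^ (1 / 8 : ℝ) * 4 ≤
        z ^ (4 / 5 : ℝ) * z ^ (1 / 8 : ℝ) * z ^ (3 / 40 : ℝ) := mul_le_mul_of_nonneg_left hz4 h7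
    rw [e1] at h8
    linarith
  exact le_of_mul_le_mul_right (le_trans h6 h5) (by positivity)

end Pool.Agent.H237.Digits
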