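import Mathlib
import Pool.Agent.H237.Digits.Mers

/-!
# Summation over the scales
-/

namespace Pool.Agent.H237.Digits

open MeasureTheory Set Filter Topology Pool.Agent.H237.Primes Pool.Agent.H237.Gap

lemma exists_primes {n k : ℕ} (h : k ≤ Nat.primeCounting n) :
    ∃ s : Finset ℕ, s.card = k ∧ ∀ q ∈ s, q.Prime ∧ q ≤ n := by
  have hcard : ((Finset.Icc 1 n).filter Nat.Prime).card = Nat.primeCounting n := by
    rw [Nat.primeCounting, Nat.primeCounting', Nat.count_eq_card_filter_range]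
    congr 1
    ext q
    simp only [Finset.mem_filter, Finset.mem_Icc, Finset.mem_range]
    constructor
    · rintro ⟨⟨_, h1⟩, h2⟩
      exact ⟨by omega, h2⟩
    · rintro ⟨h1, h2⟩
      exact ⟨⟨h2.pos, by omega⟩, h2⟩
  rw [← hcard] at h
  obtain ⟨s, hs1, hs2⟩ := Finset.exists_subset_card_eq h
  refine ⟨s, hs2, ?_⟩
  intro q hq
  have := hs1 hq
  rw [Finset.mem_filter, Finset.mem_Icc] at this
  exact ⟨this.2, this.1.2⟩

/-- One scale, multipliers `2 ^ p - 1` with `p ≤ n`. -/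
lemma mers_step (ν : Measure UnitAddCircle) [IsProbabilityMeasure ν] {n m : ℕ} (hm : 1 ≤ m)
    (hπ : 256 * m ≤ Nat.primeCounting n) (hinv : ∀ p : ℕ, p.Prime → p ≤ n → Inv ν (2 ^ p - 1))
    {j : ℕ} (hj : 1 ≤ j) (hsm : (n : ℝ) * Real.log 2 ≤ (5 / 4 : ℝ) ^ (j + 4) / 2 / (4 * m)) :
    b ν (j + 4) - b ν (j + 5) ≤ 4 / 85 * (b ν j - b ν (j + 20)) + (1 / 2) ^ m := by
  obtain ⟨s, hs1, hs2⟩ := exists_primes hπ
  have hl0 : 0 < Real.log 2 := Real.log_pos (by norm_num)
  have hinj : Set.InjOn (fun p : ℕ => 2 ^ p - 1) (s : Set ℕ) := by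
    intro p hp q hq h
    by_contra hne
    have h1 := coprime_mers (hs2 p hp).1 (hs2 q hq).1 hne
    have h' : 2 ^ p - 1 = 2 ^ q - 1 := h
    rw [h', Nat.coprime_self] at h1
    have : 2 ^ 2 ≤ 2 ^ q := Nat.pow_le_pow_right (by norm_num) (hs2 q hq).1.two_le
    omega
  apply b_step ν hm (s.image fun p => 2 ^ p - 1)
  · rw [Finset.card_image_of_injOn hinj, hs1]
  · intro u hu
    rw [Finset.mem_image] at hu
    obtain ⟨p, hp, rfl⟩ := hu
    have : 2 ^ 2 ≤ 2 ^ p := Nat.pow_le_pow_right (by norm_num) (hs2 p hp).1.two_le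
    omega
  · intro u hu v hv huv
    rw [Finset.mem_coe, Finset.mem_image] at hu hv
    obtain ⟨p, hp, rfl⟩ := hu
    obtain ⟨q, hq, rfl⟩ := hv
    exact coprime_mers (hs2 p hp).1 (hs2 q hq).1 (fun h => huv (by rw [h]))
  · intro u hu
    rw [Finset.mem_image] at hu
    obtain ⟨p, hp, rfl⟩ := hu
    exact hinv p (hs2 p hp).1 (hs2 p hp).2
  · exact hj
  · intro u hu
    rw [Finset.mem_image] at hu
    obtain ⟨p, hp, rfl⟩ := hu
    refine le_trans ?_ hsm
    have h1 : (((2 ^ p - 1 : ℕ)) : ℝ) ≤ (2 : ℝ) ^ p := by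
      have : (2 ^ p - 1 : ℕ) ≤ 2 ^ p := Nat.sub_le _ _
      exact_mod_cast this
    have h2 : (0 : ℝ) < ((2 ^ p - 1 : ℕ) : ℝ) := by exact_mod_cast two_pow_sub_pos (hs2 p hp).1
    calc Real.log (((2 ^ p - 1 : ℕ)) : ℝ) ≤ Real.log ((2 : ℝ) ^ p) := Real.log_le_log h2 h1
      _ = p * Real.log 2 := Real.log_pow _ _
      _ ≤ n * Real.log 2 := by
        apply mul_le_mul_of_nonneg_right _ hl0.le
        exact_mod_cast (hs2 p hp).2

lemma sq_pi : ∀ᶠ k : ℕ in atTop, k ≤ Nat.primeCounting (k ^ 2) := by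
  have h1 : Tendsto (fun k : ℕ => k ^ 2) atTop atTop := tendsto_pow_atTop (by norm_num)
  have h2 : ∀ᶠ z : ℝ in atTop, Real.log z ≤ z / 100 := by
    have h2 := (Real.isLittleO_log_id_atTop).def (show (0 : ℝ) < 1 / 100 by norm_num)
    filter_upwards [h2, eventually_ge_atTop 1] with z hz hz1
    rw [Real.norm_of_nonneg (Real.log_nonneg hz1), id, Real.norm_of_nonneg (by linarith)] at hz
    linarith
  filter_upwards [h1.eventually pi_lower, tendsto_natCast_atTop_atTop.eventually h2,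
    eventually_ge_atTop 2] with k hk1 hk2 hk3
  have hkR : (2 : ℝ) ≤ k := by exact_mod_cast hk3
  have hlog : 0 < Real.log k := Real.log_pos (by linarith)
  have h3 : (k : ℝ) ≤ Nat.primeCounting (k ^ 2) := by
    refine le_trans ?_ hk1
    push_cast
    rw [Real.log_pow, mul_div_assoc', le_div_iff₀ (by positivity)]
    push_cast
    nlinarith
  exact_mod_cast h3

lemma mid_param : ∀ᶠ H : ℝ in atTop, ∃ m : ℕ, 1 ≤ m ∧ 256 * m ≤ Nat.primeCounting ((256 * m) ^ 2) ∧
    (((256 * m) ^ 2 : ℕ) : ℝ) * Real.log 2 ≤ H / (4 * m) ∧ ((((256 * m) ^ 2 : ℕ) : ℝ)) ^ 2 ≤ H ∧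
    (1 / 2 : ℝ) ^ m ≤ 1 / H := by
  have hw : Tendsto (fun H : ℝ => H ^ (1 / 4 : ℝ)) atTop atTop :=
    tendsto_rpow_atTop (by norm_num)
  have hm : Tendsto (fun w : ℝ => ⌊w / 256⌋₊) atTop atTop :=
    tendsto_nat_floor_atTop.comp (tendsto_id.atTop_div_const (by norm_num))
  have hm2 : Tendsto (fun w : ℝ => 256 * ⌊w / 256⌋₊) atTop atTop :=
    (tendsto_id.const_mul_atTop' (by norm_num)).comp hm
  have e3 : ∀ᶠ w : ℝ in atTop, w ^ 4 * (2 * Real.exp (-(27 / 10000 * w))) ≤ 1 := by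
    have h2 : Tendsto (fun w : ℝ => (27 / 10000 * w) ^ 4 * Real.exp (-(27 / 10000 * w))) atTop
        (𝓝 0) := by
      have h3 : Tendsto (fun w : ℝ => 27 / 10000 * w) atTop atTop :=
        tendsto_id.const_mul_atTop (by norm_num)
      exact (Real.tendsto_pow_mul_exp_neg_atTop_nhds_zero 4).comp h3
    filter_upwards [h2.eventually (gt_mem_nhds
      (show (0 : ℝ) < (27 / 10000) ^ 4 / 2 by norm_num))] with w hw
    rw [mul_pow] at hw
    have h5 : (0 : ℝ) < (27 / 10000) ^ 4 := by norm_num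
    have h6 : (27 / 10000 : ℝ) ^ 4 * (w ^ 4 * (2 * Real.exp (-(27 / 10000 * w)))) <
        (27 / 10000) ^ 4 * 1 := by
      calc (27 / 10000 : ℝ) ^ 4 * (w ^ 4 * (2 * Real.exp (-(27 / 10000 * w)))) =
            2 * ((27 / 10000) ^ 4 * w ^ 4 * Real.exp (-(27 / 10000 * w))) := by ring
        _ < 2 * ((27 / 10000) ^ 4 / 2) := by linarith
        _ = _ := by ring
    exact (lt_of_mul_lt_mul_left h6 h5.le).le
  filter_upwards [hw.eventually (eventually_ge_atTop (256 : ℝ)),
    hw.eventually (hm2.eventually sq_pi), hw.eventually e3, eventually_gt_atTop 0] with H h1 h2 h3 h4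
  set w := H ^ (1 / 4 : ℝ) with hwdef
  have hw4 : w ^ 4 = H := by
    rw [hwdef, ← Real.rpow_natCast, ← Real.rpow_mul h4.le]
    norm_num
  set m := ⌊w / 256⌋₊ with hmdef
  have hm1 : 1 ≤ m := by
    rw [hmdef, Nat.one_le_floor_iff, le_div_iff₀ (by norm_num)]
    linarith
  have hmw : (m : ℝ) ≤ w / 256 := Nat.floor_le (by positivity)
  have hmR : (1 : ℝ) ≤ m := by exact_mod_cast hm1
  have h256 : (256 * m : ℝ) ≤ w := by linarith
  have hsq : (256 * m : ℝ) ^ 2 ≤ w ^ 2 := pow_le_pow_left₀ (by positivity) h256 2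
  have hl2' : Real.log 2 < 0.6931471808 := Real.log_two_lt_d9
  have hl0 : 0 < Real.log 2 := Real.log_pos (by norm_num)
  refine ⟨m, hm1, h2, ?_, ?_, ?_⟩
  · rw [le_div_iff₀ (by positivity), ← hw4]
    push_cast
    calc (256 * (m : ℝ)) ^ 2 * Real.log 2 * (4 * m) ≤ w ^ 2 * 1 * (4 * (w / 256)) := by
          gcongr
          linarith
      _ = w ^ 3 * (1 / 64) := by ring
      _ ≤ w ^ 3 * w := by
          apply mul_le_mul_of_nonneg_left _ (by positivity)
          linarith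
      _ = w ^ 4 := by ring
  · rw [← hw4]
    push_cast
    calc ((256 * (m : ℝ)) ^ 2) ^ 2 ≤ (w ^ 2) ^ 2 := pow_le_pow_left₀ (by positivity) hsq 2
      _ = w ^ 4 := by ring
  · have h5 : w / 256 - 1 ≤ m := by
      have := Nat.lt_floor_add_one (w / 256)
      linarith
    have h6 := half_pow_le h5
    rw [le_div_iff₀ h4]
    have h7 : Real.exp (-(w / 256 * Real.log 2)) ≤ Real.exp (-(27 / 10000 * w)) := by
      apply Real.exp_le_exp.mpr
      have hl2 : 0.6931471803 < Real.log 2 := Real.log_two_gt_d9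
      nlinarith
    calc (1 / 2 : ℝ) ^ m * H ≤ (2 * Real.exp (-(27 / 10000 * w))) * H := by
          apply mul_le_mul_of_nonneg_right _ h4.le
          linarith
      _ = w ^ 4 * (2 * Real.exp (-(27 / 10000 * w))) := by rw [hw4]; ring
      _ ≤ 1 := h3

/-- A fine step with an explicit bound. -/
lemma fine_step' : ∀ᶠ h : ℝ in atTop, ∀ H : ℝ, h ≤ H → ∀ (ν : Measure UnitAddCircle)
    [IsProbabilityMeasure ν] (K : ℕ), (∀ p : ℕ, p.Prime → p ≤ K → Inv ν (2 ^ p - 1)) →
    H / Real.log 2 - 1 ≤ K →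
    g ν (Real.exp (-H)) - g ν (Real.exp (-(6 / 5 * H))) ≤ h ^ (-(4 / 5) : ℝ) := by
  obtain ⟨z₀, hz₀⟩ := eventually_atTop.mp many_primes'
  filter_upwards [eventually_ge_atTop z₀, eventually_ge_atTop 20] with h h1 h2 H hH ν _ K hinv hHK
  have hl2' : Real.log 2 < 0.6931471808 := Real.log_two_lt_d9
  have hl0 : 0 < Real.log 2 := Real.log_pos (by norm_num)
  have hz : H ≤ H / Real.log 2 - 1 := by
    have : H + 1 ≤ H / Real.log 2 := by
      rw [le_div_iff₀ hl0]
      nlinarith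
    linarith
  have h3 := fine_step ν hinv (by linarith) hHK
  have h4 := hz₀ (H / Real.log 2 - 1) (by linarith)
  have hh0 : 0 < h := by linarith
  have h5 : h ^ (4 / 5 : ℝ) ≤ (PS (H / Real.log 2 - 1)).card := by
    refine le_trans ?_ h4
    apply Real.rpow_le_rpow hh0.le (by linarith) (by norm_num)
  have h6 : 0 ≤ g ν (Real.exp (-H)) - g ν (Real.exp (-(6 / 5 * H))) := by
    rw [sub_nonneg]
    apply g_mono
    apply Real.exp_le_exp.mpr
    linarith
  have h7 : h ^ (4 / 5 : ℝ) * (g ν (Real.exp (-H)) - g ν (Real.exp (-(6 / 5 * H)))) ≤ 1 :=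
    le_trans (mul_le_mul_of_nonneg_right h5 h6) h3
  have h8 : 0 < h ^ (4 / 5 : ℝ) := by positivity
  rw [Real.rpow_neg hh0.le, ← one_div, le_div_iff₀ h8]
  linarith

/-- The constants needed at the last scales. -/
structure GoodK (K : ℕ) : Prop where
  y2 : 2 ≤ K
  M1 : 1 ≤ Nat.primeCounting K / 256
  vK : (K : ℝ) ≤ Real.exp (1 / 1000 * (K / Real.log K))
  KK : (K : ℝ) ≤ (⌈5 * Real.exp (1 / 1000 * (K / Real.log K))⌉₊ : ℝ)
  err : 17 * (⌈5 * Real.exp (1 / 1000 * (K / Real.log K))⌉₊ : ℝ) *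
    (1 / 2) ^ (Nat.primeCounting K / 256) + 1 / (⌈5 * Real.exp (1 / 1000 * (K / Real.log K))⌉₊ : ℝ) ≤
      2 / K

lemma eventually_goodK : ∀ᶠ K : ℕ in atTop, GoodK K := by
  have hlt : Tendsto (fun y : ℕ => Real.log (y : ℝ)) atTop atTop :=
    Real.tendsto_log_atTop.comp tendsto_natCast_atTop_atTop
  have e2 : ∀ᶠ z : ℝ in atTop, 10000000 * Real.log z ^ 2 ≤ z := by
    have h2 := (Real.isLittleO_pow_log_id_atTop (n := 2)).def
      (show (0 : ℝ) < 1 / 10000000 by norm_num)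
    filter_upwards [h2, eventually_ge_atTop 1] with z hz hz1
    rw [Real.norm_of_nonneg (by positivity), id, Real.norm_of_nonneg (by linarith)] at hz
    linarith
  filter_upwards [eventually_ge_atTop 2, hlt.eventually (eventually_ge_atTop (100 : ℝ)),
    tendsto_natCast_atTop_atTop.eventually e2, pi_lower] with K h1 hl1 hl2 hp
  set ℓ := Real.log K with hℓ
  have hKR : (2 : ℝ) ≤ K := by exact_mod_cast h1
  have hK0 : (0 : ℝ) < K := by linarith
  have hℓ0 : 0 < ℓ := by linarith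
  have hKexp : Real.exp ℓ = K := Real.exp_log hK0
  set w := (K : ℝ) / ℓ with hw
  have hwl : 10000000 * ℓ ≤ w := by
    rw [hw, le_div_iff₀ hℓ0]
    nlinarith
  have hlog2 : 0.6931471803 < Real.log 2 := Real.log_two_gt_d9
  set v := Real.exp (1 / 1000 * w) with hv
  have hv0 : 0 < v := Real.exp_pos _
  set K₀ := ⌈5 * v⌉₊ with hK₀
  have hK1 : 5 * v ≤ K₀ := Nat.le_ceil _
  have hK2 : (K₀ : ℝ) < 5 * v + 1 := Nat.ceil_lt_add_one (by positivity)
  have hv1 : 1 ≤ v := by
    rw [hv, Real.one_le_exp_iff]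
    linarith
  have hvK : (K : ℝ) ≤ v := by
    rw [hv, ← hKexp]
    apply Real.exp_le_exp.mpr
    linarith
  have hK0R : (0 : ℝ) < K₀ := by linarith
  set mB := Nat.primeCounting K / 256 with hmB
  have hmB1 : (Nat.primeCounting K : ℝ) / 256 - 1 ≤ mB := by
    have h1 : Nat.primeCounting K < 256 * (mB + 1) := by omega
    have h2 : (Nat.primeCounting K : ℝ) < 256 * (mB + 1) := by exact_mod_cast h1
    linarith
  have hmBpos : 1 ≤ mB := by
    have h1 : (256 : ℝ) ≤ Nat.primeCounting K := by linarith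
    have h2 : 256 ≤ Nat.primeCounting K := by exact_mod_cast h1
    omega
  have hβ := half_pow_le hmB1
  set β : ℝ := (1 / 2) ^ mB with hβdef
  have hβ0 : 0 ≤ β := by positivity
  refine ⟨h1, hmBpos, hvK, by linarith, ?_⟩
  have hEB : 17 * K₀ * β ≤ 1 / K := by
    have h1 : Real.exp (-((Nat.primeCounting K : ℝ) / 256 * Real.log 2)) ≤
        Real.exp (-(16 / 10000 * w)) := by
      apply Real.exp_le_exp.mpr
      have h2 : (0 : ℝ) ≤ w := by linarith
      have h3 : 3 / 5 * w / 256 * 0.6931471803 ≤ (Nat.primeCounting K : ℝ) / 256 * Real.log 2 := by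
        apply mul_le_mul _ hlog2.le (by norm_num) (by positivity)
        linarith
      linarith
    have h2 : (K₀ : ℝ) ≤ 6 * v := by linarith
    have h3 : 17 * K₀ * β ≤ 17 * (6 * v) * (2 * Real.exp (-(16 / 10000 * w))) := by
      apply mul_le_mul _ (by linarith) hβ0 (by positivity)
      linarith
    refine le_trans h3 ?_
    have h4 : 17 * (6 * v) * (2 * Real.exp (-(16 / 10000 * w))) = 204 * Real.exp (-(6 / 10000 * w)) := by
      have h5 : v * Real.exp (-(16 / 10000 * w)) = Real.exp (-(6 / 10000 * w)) := by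
        rw [hv, ← Real.exp_add]; congr 1; ring
      rw [← h5]; ring
    rw [h4]
    have h5 : Real.exp (-(6 / 10000 * w)) ≤ Real.exp (-(6000 * ℓ)) :=
      Real.exp_le_exp.mpr (by linarith)
    have h6 : Real.exp (-(6000 * ℓ)) = Real.exp (-(5999 * ℓ)) * (1 / K) := by
      rw [one_div, ← hKexp, ← Real.exp_neg, ← Real.exp_add]; congr 1; ring
    have h7 : 204 * Real.exp (-(5999 * ℓ)) ≤ 1 := by
      rw [Real.exp_neg, ← div_eq_mul_inv, div_le_one (Real.exp_pos _)]
      have := Real.add_one_le_exp (5999 * ℓ)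
      linarith
    calc 204 * Real.exp (-(6 / 10000 * w)) ≤ 204 * (Real.exp (-(5999 * ℓ)) * (1 / K)) := by
          rw [← h6]; linarith
      _ = (204 * Real.exp (-(5999 * ℓ))) * (1 / K) := by ring
      _ ≤ 1 * (1 / K) := mul_le_mul_of_nonneg_right h7 (by positivity)
      _ = 1 / K := one_mul _
  have hEK : 1 / (K₀ : ℝ) ≤ 1 / K := by
    apply one_div_le_one_div_of_le hK0
    linarith
  have : (2 : ℝ) / K = 1 / K + 1 / K := by ring
  rw [this]
  linarith

/-- The mass of the scales between `(5/4) ^ J` and the last scale. -/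
theorem pack_total : ∃ h₀ : ℝ, ∀ K : ℕ, GoodK K → ∀ (ν : Measure UnitAddCircle)
    [IsProbabilityMeasure ν], (∀ p : ℕ, p.Prime → p ≤ K → Inv ν (2 ^ p - 1)) →
    ∀ J : ℕ, h₀ ≤ (5 / 4 : ℝ) ^ J → (5 / 4 : ℝ) ^ J ≤ K / 4 →
    b ν J - b ν ⌈5 * Real.exp (1 / 1000 * (K / Real.log K))⌉₊ ≤
      170 * ((5 / 4 : ℝ) ^ J) ^ (-(4 / 5) : ℝ) + 34 / K := by
  obtain ⟨a, ha⟩ := eventually_atTop.mp mid_param
  obtain ⟨a', ha'⟩ := eventually_atTop.mp fine_step'
  refine ⟨max (max a a') 20, ?_⟩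
  intro K hK ν _ hinv J hJ hJK
  obtain ⟨hy2, hM1, _, hKK, herr⟩ := hK
  set h := (5 / 4 : ℝ) ^ J with hh
  have hha : a ≤ h := le_trans (le_trans (le_max_left _ _) (le_max_left _ _)) hJ
  have hha' : a' ≤ h := le_trans (le_trans (le_max_right _ _) (le_max_left _ _)) hJ
  have hh20 : 20 ≤ h := le_trans (le_max_right _ _) hJ
  have hh0 : 0 < h := by linarith
  have hKR : (2 : ℝ) ≤ K := by exact_mod_cast hy2
  have hK0 : (0 : ℝ) < K := by linarith
  have hJ1 : 1 ≤ J := by
    by_contra hcon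
    have : J = 0 := by omega
    rw [hh, this] at hh20
    norm_num at hh20
  have hl2 : 0.6931471803 < Real.log 2 := Real.log_two_gt_d9
  have hl2' : Real.log 2 < 0.6931471808 := Real.log_two_lt_d9
  have hl0 : 0 < Real.log 2 := by linarith
  set K₀ := ⌈5 * Real.exp (1 / 1000 * (K / Real.log K))⌉₊ with hK₀
  set M := Nat.primeCounting K / 256 with hM
  set β : ℝ := (1 / 2) ^ M with hβdef
  have hβ0 : 0 ≤ β := by positivity
  have hK₀1 : 1 ≤ K₀ := by
    rw [hK₀, Nat.one_le_ceil_iff]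
    positivity
  have hK0R : (0 : ℝ) < K₀ := by exact_mod_cast hK₀1
  -- the first annulus
  have hδ : b ν J - b ν (J + 4) ≤ 5 * h ^ (-(4 / 5) : ℝ) := by
    have st : ∀ i : ℕ, i ≤ 4 → g ν (Real.exp (-((6 / 5) ^ i * h))) -
        g ν (Real.exp (-((6 / 5) ^ (i + 1) * h))) ≤ h ^ (-(4 / 5) : ℝ) := by
      intro i hi
      have h1 : (1 : ℝ) ≤ (6 / 5) ^ i := one_le_pow₀ (by norm_num)
      have h2 : (6 / 5 : ℝ) ^ i ≤ (6 / 5) ^ 4 := pow_le_pow_right₀ (by norm_num) hi
      have h3 := ha' h hha' ((6 / 5) ^ i * h) (by nlinarith) ν K hinv (by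
        have h4 : (6 / 5 : ℝ) ^ i * h ≤ (6 / 5) ^ 4 * (K / 4) :=
          mul_le_mul h2 hJK hh0.le (by positivity)
        have h5 : (6 / 5 : ℝ) ^ i * h / Real.log 2 ≤ K := by
          rw [div_le_iff₀ hl0]
          norm_num at h4
          nlinarith
        linarith)
      have e : (6 / 5 : ℝ) ^ (i + 1) * h = 6 / 5 * ((6 / 5) ^ i * h) := by ring
      rw [e]
      exact h3
    have s0 := st 0 (by norm_num)
    have s1 := st 1 (by norm_num)
    have s2 := st 2 (by norm_num)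
    have s3 := st 3 (by norm_num)
    have s4 := st 4 (by norm_num)
    have e0 : (6 / 5 : ℝ) ^ 0 * h = h := by ring
    rw [e0] at s0
    have h5 : g ν (Real.exp (-((6 / 5) ^ (4 + 1) * h))) ≤ g ν (Real.exp (-((5 / 4 : ℝ) ^ (J + 4)))) := by
      apply g_mono
      apply Real.exp_le_exp.mpr
      apply neg_le_neg
      rw [pow_add, ← hh]
      norm_num
      nlinarith
    unfold b
    rw [← hh]
    linarith
  obtain ⟨K', hKa, hKb, hKc⟩ := exists_block (b_antitone ν) (b_nonneg ν) (b_le_one ν) K₀ K₀ hK₀1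
  have hJK₀ : J + 4 ≤ K₀ := by
    have h1 : 1 + (J : ℝ) * (1 / 4) ≤ (5 / 4 : ℝ) ^ J := by
      have := one_add_mul_le_pow (show (-2 : ℝ) ≤ 1 / 4 by norm_num) J
      norm_num at this ⊢
      linarith
    have h3 : ((J + 4 : ℕ) : ℝ) ≤ (K₀ : ℝ) := by
      push_cast
      linarith
    exact_mod_cast h3
  have hsteps : ∀ j, J ≤ j → j + 20 ≤ K' → b ν (j + 4) - b ν (j + 5) ≤
      4 / 85 * (b ν j - b ν (j + 20)) + ((4 / 5) ^ j + β) := by
    intro j hj _
    set H := (5 / 4 : ℝ) ^ (j + 4) / 2 with hHdef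
    have hHj : H = (5 / 4 : ℝ) ^ j * (625 / 512) := by
      rw [hHdef, pow_add]; norm_num; ring
    have hpj : h ≤ (5 / 4 : ℝ) ^ j := pow_le_pow_right₀ (by norm_num) hj
    have hpj0 : (0 : ℝ) < (5 / 4 : ℝ) ^ j := by positivity
    have hH0 : 0 < H := by rw [hHj]; positivity
    rcases le_or_gt H ((K : ℝ) ^ 2) with hc | hc
    · obtain ⟨m, h1, h2, h3, h4, h5⟩ := ha H (by rw [hHj]; linarith)
      have h6 : (256 * m) ^ 2 ≤ K := by
        have h7 : ((((256 * m) ^ 2 : ℕ)) : ℝ) ≤ K := by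
          apply le_of_sq_le_sq _ hK0.le
          exact le_trans h4 hc
        exact_mod_cast h7
      have h7 := mers_step ν h1 h2 (fun p hp hpn => hinv p hp (le_trans hpn h6)) (j := j) (by omega) h3
      have h8 : 1 / H ≤ (4 / 5) ^ j := by
        rw [div_le_iff₀ hH0, hHj, ← mul_assoc, ← mul_pow]
        norm_num
      linarith
    · have h6 : ((K : ℕ) : ℝ) * Real.log 2 ≤ (5 / 4 : ℝ) ^ (j + 4) / 2 / (4 * M) := by
        have hMR : (1 : ℝ) ≤ M := by exact_mod_cast hM1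
        rw [← hHdef, le_div_iff₀ (by positivity)]
        have h7 : (M : ℝ) ≤ K / 256 := by
          have h8 : M * 256 ≤ K := by
            have h9 : Nat.primeCounting K ≤ K := by
              obtain ⟨s, hs1, hs2⟩ := exists_primes (le_refl (Nat.primeCounting K))
              rw [← hs1]
              calc s.card ≤ (Finset.Icc 1 K).card := by
                    apply Finset.card_le_card
                    intro q hq
                    rw [Finset.mem_Icc]
                    exact ⟨(hs2 q hq).1.pos, (hs2 q hq).2⟩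
                _ = K := by simp
            have h10 : M * 256 ≤ Nat.primeCounting K := Nat.div_mul_le_self _ _
            omega
          have h9 : (M : ℝ) * 256 ≤ K := by exact_mod_cast h8
          linarith
        calc (K : ℝ) * Real.log 2 * (4 * M) ≤ K * 1 * (4 * (K / 256)) := by
              gcongr
              linarith
          _ = (K : ℝ) ^ 2 * (1 / 64) := by ring
          _ ≤ H := by nlinarith
      have h7 := mers_step ν hM1 (Nat.mul_div_le _ _) hinv (j := j) (by omega) h6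
      have h8 : (0 : ℝ) ≤ (4 / 5) ^ j := by positivity
      linarith
  have hsum : ∑ i ∈ Finset.range (K' - 19 - J), ((4 / 5 : ℝ) ^ (J + i) + β) ≤
      5 * (4 / 5) ^ J + 17 * K₀ * β := by
    rw [Finset.sum_add_distrib]
    apply add_le_add
    · simp_rw [pow_add]
      rw [← Finset.mul_sum, geom_sum_eq (by norm_num)]
      have h1 : (0 : ℝ) ≤ (4 / 5) ^ J := by positivity
      have h2 : (0 : ℝ) ≤ (4 / 5) ^ (K' - 19 - J) := by positivity
      have h3 : ((4 / 5 : ℝ) ^ (K' - 19 - J) - 1) / (4 / 5 - 1) ≤ 5 := by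
        rw [div_le_iff_of_neg (by norm_num)]
        linarith
      nlinarith
    · rw [Finset.sum_const, Finset.card_range, nsmul_eq_mul]
      apply mul_le_mul_of_nonneg_right _ hβ0
      have h1 : K' - 19 - J ≤ 17 * K₀ := by omega
      exact_mod_cast h1
  have hfin := finite_sum (b_antitone ν) (show J + 20 ≤ K' by omega) hsteps hδ hsum
  have h1 : b ν K' ≤ b ν K₀ := b_antitone ν (by omega)
  have h2 : (4 / 5 : ℝ) ^ J ≤ h ^ (-(4 / 5) : ℝ) := by
    have h3 : (4 / 5 : ℝ) ^ J = h ^ (-1 : ℝ) := by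
      rw [Real.rpow_neg_one, hh, ← inv_pow]
      norm_num
    rw [h3]
    exact Real.rpow_le_rpow_of_exponent_le (by linarith) (by norm_num)
  have h3 : (34 : ℝ) / K = 17 * (2 / K) := by ring
  rw [h3]
  linarith

end Pool.Agent.H237.Digits
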