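import Mathlib
import Pool.Agent.H237.Digits.Near
import Pool.Agent.H237.Digits.Scales

/-!
# The first coefficient
-/

namespace Pool.Agent.H237.Digits

open MeasureTheory Set Filter Topology Pool.Agent.H237.Primes Pool.Agent.H237.Gap

/-- `exp (exp (exp (K / (1000 log K))))`. -/
noncomputable def X (K : ℕ) : ℝ := Real.exp (Real.exp (Real.exp (1 / 1000 * (K / Real.log K))))

/-- The invariance hypotheses. -/
structure Hyp (ν : Measure UnitAddCircle) (K : ℕ) (σ τ : ℤ) : Prop where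
  hσ : σ = 1 ∨ σ = -1
  hτ : τ = 1 ∨ τ = -1
  two : Inv ν 2
  mers : ∀ i, 2 ≤ i → i ≤ K → Inv ν (2 ^ i - 1)
  three : ∀ i j, 1 ≤ j → j < i → i ≤ K → ∀ m : ℕ, (m : ℤ) = 2 ^ i + σ * 2 ^ j + τ → Inv ν m

lemma two_mul_le_pow {t : ℕ} (h : 2 ≤ t) : 2 * t ≤ t ^ 40 := by
  calc 2 * t ≤ t * t := Nat.mul_le_mul_right _ h
    _ = t ^ 2 := by ring
    _ ≤ t ^ 40 := Nat.pow_le_pow_right (by omega) (by norm_num)

theorem first_coeff : ∀ᶠ K : ℕ in atTop, ∀ (ν : Measure UnitAddCircle) [IsProbabilityMeasure ν]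
    (σ τ : ℤ), Hyp ν K σ τ →
    ‖(∫ x, (fourier 1 x : ℂ) ∂ν) - (g ν (1 / X K) : ℂ)‖ ≤ 3030 * (K : ℝ) ^ (-(1 / 50) : ℝ) := by
  obtain ⟨h₀, hpack⟩ := pack_total
  have hT : Tendsto (fun K : ℕ => ((K : ℝ) / 3) ^ (1 / 40 : ℝ)) atTop atTop :=
    (tendsto_rpow_atTop (by norm_num)).comp
      ((tendsto_natCast_atTop_atTop).atTop_div_const (by norm_num))
  filter_upwards [eventually_goodK, hT.eventually (eventually_ge_atTop (2 * h₀ + 4 : ℝ)),
    hT.eventually (eventually_ge_atTop (3 : ℝ)), eventually_ge_atTop 100] with K hK hT1 hT2 hK100 ν _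
    σ τ hyp
  set T := ((K : ℝ) / 3) ^ (1 / 40 : ℝ) with hTdef
  set t := ⌊T⌋₊ with ht
  have hKR : (100 : ℝ) ≤ K := by exact_mod_cast hK100
  have hK0 : (0 : ℝ) < K := by linarith
  have htT : (t : ℝ) ≤ T := Nat.floor_le (by positivity)
  have hTt : T < t + 1 := Nat.lt_floor_add_one _
  have ht2 : (2 : ℝ) ≤ t := by linarith
  have ht0 : (0 : ℝ) < t := by linarith
  have ht1 : (1 : ℝ) ≤ t := by linarith
  have ht1' : 1 ≤ t := by exact_mod_cast ht1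
  have hT40 : T ^ 40 = K / 3 := by
    rw [hTdef, ← Real.rpow_natCast, ← Real.rpow_mul (by positivity)]
    norm_num
  have hL3R : 3 * (t : ℝ) ^ 40 ≤ K := by
    have : (t : ℝ) ^ 40 ≤ T ^ 40 := pow_le_pow_left₀ ht0.le htT 40
    linarith
  have hL3 : 3 * t ^ 40 ≤ K := by exact_mod_cast hL3R
  have hl2 : 0.6931471803 < Real.log 2 := Real.log_two_gt_d9
  have hl2' : Real.log 2 < 0.6931471808 := Real.log_two_lt_d9
  have hl0 : 0 < Real.log 2 := by linarith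
  -- the first scale
  set R := ((t : ℝ) + 2) * Real.log 2 with hR
  have hR1 : 1 ≤ R := by rw [hR]; nlinarith
  obtain ⟨J, hJ1, hJ2⟩ := exists_nat_pow_near hR1 (show (1 : ℝ) < 5 / 4 by norm_num)
  set h := (5 / 4 : ℝ) ^ J with hh
  have hh0 : 0 < h := by positivity
  have hhlow : (t : ℝ) / 2 ≤ h := by
    rw [pow_succ, ← hh] at hJ2
    have : (t : ℝ) * 0.69 ≤ R := by rw [hR]; nlinarith
    linarith
  have hhK : h ≤ K / 4 := by
    have h1 : R ≤ t + 2 := by rw [hR]; nlinarith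
    have h2 : (t : ℝ) ^ 40 = t * t ^ 39 := by ring
    have h3 : (2 : ℝ) ^ 39 ≤ t ^ 39 := pow_le_pow_left₀ (by norm_num) ht2 39
    norm_num at h3
    have h4 : (t : ℝ) * 8 ≤ t * t ^ 39 := mul_le_mul_of_nonneg_left (by linarith) ht0.le
    linarith
  have hpk := hpack K hK ν (fun p hp hpK => hyp.mers p hp.two_le hpK) J (by linarith) hhK
  set K₀ := ⌈5 * Real.exp (1 / 1000 * (K / Real.log K))⌉₊ with hK₀
  set v := Real.exp (1 / 1000 * (K / Real.log K)) with hv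
  have hvK : (K : ℝ) ≤ v := hK.vK
  have hXv : 1 / X K = Real.exp (-Real.exp v) := by
    unfold X
    rw [one_div, ← Real.exp_neg]
  -- the error
  have hε : g ν ((1 / 2) ^ (t + 2)) - g ν (1 / X K) ≤ 170 * h ^ (-(4 / 5) : ℝ) + 34 / K := by
    refine le_trans ?_ hpk
    unfold b
    have a1 : g ν ((1 / 2) ^ (t + 2)) ≤ g ν (Real.exp (-((5 / 4 : ℝ) ^ J))) := by
      apply g_mono
      have : ((1 : ℝ) / 2) ^ (t + 2) = Real.exp (-R) := by
        rw [hR, one_div, inv_pow, Real.exp_neg]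
        congr 1
        have h2 : (2 : ℝ) = Real.exp (Real.log 2) := (Real.exp_log (by norm_num)).symm
        nth_rewrite 1 [h2]
        rw [← Real.exp_nat_mul]
        push_cast
        rfl
      rw [this]
      apply Real.exp_le_exp.mpr
      linarith
    have a2 : g ν (Real.exp (-((5 / 4 : ℝ) ^ K₀))) ≤ g ν (1 / X K) := by
      apply g_mono
      rw [hXv]
      apply Real.exp_le_exp.mpr
      apply neg_le_neg
      rw [← Real.log_le_log_iff (Real.exp_pos _) (by positivity), Real.log_exp, Real.log_pow]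
      have h5 : 1 / 5 ≤ Real.log (5 / 4) := by
        have := Real.one_sub_inv_le_log_of_pos (show (0 : ℝ) < 5 / 4 by norm_num)
        norm_num at this
        linarith
      have h6 : 5 * v ≤ K₀ := Nat.le_ceil _
      nlinarith
    linarith
  have hr : 2 * Real.pi * 2 ^ (2 * t ^ 40) * (1 / X K) ≤ 1 / (t : ℝ) ^ 2 := by
    rw [hXv]
    have b1 : (2 : ℝ) ^ (2 * t ^ 40) ≤ Real.exp K := by
      have h1 : (2 : ℝ) ≤ Real.exp 1 := by
        have := Real.add_one_le_exp (1 : ℝ)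
        linarith
      calc (2 : ℝ) ^ (2 * t ^ 40) ≤ 2 ^ K := pow_le_pow_right₀ (by norm_num) (by omega)
        _ ≤ Real.exp 1 ^ K := pow_le_pow_left₀ (by norm_num) h1 K
        _ = Real.exp K := by rw [← Real.exp_nat_mul]; simp
    have b2 : (t : ℝ) ^ 2 ≤ Real.exp K := by
      have h1 : (t : ℝ) ^ 2 ≤ t ^ 40 := pow_le_pow_right₀ ht1 (by norm_num)
      have := Real.add_one_le_exp (K : ℝ)
      linarith
    have b3 : 2 * Real.pi ≤ Real.exp K := by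
      have := Real.pi_le_four
      have := Real.add_one_le_exp (K : ℝ)
      linarith
    have b4 : 3 * (K : ℝ) ≤ Real.exp v := by
      have h1 : (K : ℝ) ^ 2 / 2 ≤ Real.exp v := by
        have h2 := Real.quadratic_le_exp_of_nonneg (show 0 ≤ v by linarith)
        nlinarith
      nlinarith
    rw [le_div_iff₀ (by positivity)]
    have hpi := Real.pi_pos
    calc 2 * Real.pi * 2 ^ (2 * t ^ 40) * Real.exp (-Real.exp v) * (t : ℝ) ^ 2 ≤
          Real.exp K * Real.exp K * Real.exp (-Real.exp v) * Real.exp K := by gcongr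
      _ = Real.exp (3 * K - Real.exp v) := by
          rw [← Real.exp_add, ← Real.exp_add, ← Real.exp_add]; congr 1; ring
      _ ≤ 1 := by
          rw [Real.exp_le_one_iff]
          linarith
  have hcoef : Coef ν K σ τ (∫ x, (fourier 1 x : ℂ) ∂ν) :=
    coef_of_inv hyp.hσ hyp.hτ hyp.two hyp.mers hyp.three
  have hδ0 : (0 : ℝ) < 1 / (t : ℝ) ^ 2 := by positivity
  have hmL : 2 * t ≤ t ^ 40 := two_mul_le_pow (by exact_mod_cast ht2)
  have hmain := near hcoef hyp.two hL3 ht1' hmL (s := (t : ℝ) ^ 20) (by positivity)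
    (by push_cast; ring) (κ := 8 + (t : ℝ) ^ 10) (by
      have : (0 : ℝ) ≤ (t : ℝ) ^ 10 := by positivity
      linarith) hδ0 hr hε
  refine le_trans hmain ?_
  -- arithmetic
  have p10 : (0 : ℝ) < (t : ℝ) ^ 10 := by positivity
  have p10' : (1 : ℝ) ≤ (t : ℝ) ^ 10 := one_le_pow₀ ht1
  have c1 : (8 + (t : ℝ) ^ 10) * (2 / ((t ^ 40 : ℕ) : ℝ) + 4 / (t : ℝ) ^ 20) + 2 / ((t ^ 40 : ℕ) : ℝ) +
      1 / (2 * (8 + (t : ℝ) ^ 10 - 3)) ≤ 57 / (t : ℝ) ^ 10 := by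
    push_cast
    have d1 : (2 : ℝ) / (t : ℝ) ^ 40 ≤ 2 / (t : ℝ) ^ 20 :=
      div_le_div_of_nonneg_left (by norm_num) (by positivity) (pow_le_pow_right₀ ht1 (by norm_num))
    have d2 : (2 : ℝ) / (t : ℝ) ^ 40 ≤ 2 / (t : ℝ) ^ 10 :=
      div_le_div_of_nonneg_left (by norm_num) (by positivity) (pow_le_pow_right₀ ht1 (by norm_num))
    have d3 : (1 : ℝ) / (2 * (8 + (t : ℝ) ^ 10 - 3)) ≤ 1 / (t : ℝ) ^ 10 :=
      one_div_le_one_div_of_le p10 (by linarith)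
    have d4 : (8 + (t : ℝ) ^ 10) * (2 / (t : ℝ) ^ 40 + 4 / (t : ℝ) ^ 20) ≤
        (9 * (t : ℝ) ^ 10) * (6 / (t : ℝ) ^ 20) := by
      apply mul_le_mul (by linarith) _ (by positivity) (by positivity)
      have : (6 : ℝ) / (t : ℝ) ^ 20 = 2 / (t : ℝ) ^ 20 + 4 / (t : ℝ) ^ 20 := by ring
      linarith
    have d5 : (9 * (t : ℝ) ^ 10) * (6 / (t : ℝ) ^ 20) = 54 / (t : ℝ) ^ 10 := by
      field_simp
      ring
    have d6 : (57 : ℝ) / (t : ℝ) ^ 10 = 54 / (t : ℝ) ^ 10 + 2 / (t : ℝ) ^ 10 + 1 / (t : ℝ) ^ 10 := by ring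
    linarith
  have c2 : 2 / (1 / (t : ℝ) ^ 2) ^ 4 = 2 * (t : ℝ) ^ 8 := by
    field_simp
  have c3 : 2 / (1 / (t : ℝ) ^ 2) ^ 4 * ((8 + (t : ℝ) ^ 10) * (2 / ((t ^ 40 : ℕ) : ℝ) +
      4 / (t : ℝ) ^ 20) + 2 / ((t ^ 40 : ℕ) : ℝ) + 1 / (2 * (8 + (t : ℝ) ^ 10 - 3))) ≤
      114 / (t : ℝ) ^ 2 := by
    rw [c2]
    calc 2 * (t : ℝ) ^ 8 * _ ≤ 2 * (t : ℝ) ^ 8 * (57 / (t : ℝ) ^ 10) :=
          mul_le_mul_of_nonneg_left c1 (by positivity)
      _ = 114 / (t : ℝ) ^ 2 := by field_simp; norm_num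
  set q := (t : ℝ) ^ (-(4 / 5) : ℝ) with hq
  have hq1 : 1 / (t : ℝ) ≤ q := by
    rw [hq, one_div, ← Real.rpow_neg_one]
    exact Real.rpow_le_rpow_of_exponent_le ht1 (by norm_num)
  have c4 : 1 / (t : ℝ) ^ 2 ≤ q := by
    refine le_trans ?_ hq1
    apply one_div_le_one_div_of_le ht0
    nlinarith
  have c5 : 1 / (K : ℝ) ≤ q := by
    refine le_trans ?_ hq1
    apply one_div_le_one_div_of_le ht0
    have : (t : ℝ) ≤ t ^ 40 := le_self_pow₀ ht1 (by norm_num)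
    linarith
  have two_pow : (2 : ℝ) ^ (4 / 5 : ℝ) ≤ 2 := by
    calc (2 : ℝ) ^ (4 / 5 : ℝ) ≤ 2 ^ (1 : ℝ) :=
          Real.rpow_le_rpow_of_exponent_le (by norm_num) (by norm_num)
      _ = 2 := Real.rpow_one 2
  have half : ∀ y : ℝ, 0 < y → (y / 2) ^ (-(4 / 5) : ℝ) ≤ 2 * y ^ (-(4 / 5) : ℝ) := by
    intro y hy
    rw [Real.div_rpow hy.le (by norm_num), Real.rpow_neg (by norm_num : (0 : ℝ) ≤ 2)]
    rw [div_inv_eq_mul, mul_comm]
    exact mul_le_mul_of_nonneg_right two_pow (by positivity)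
  have c6 : h ^ (-(4 / 5) : ℝ) ≤ 2 * q := by
    refine le_trans ?_ (half t ht0)
    exact Real.rpow_le_rpow_of_nonpos (by positivity) hhlow (by norm_num)
  have c7 : q ≤ 6 * (K : ℝ) ^ (-(1 / 50) : ℝ) := by
    have f1 : q ≤ (T / 2) ^ (-(4 / 5) : ℝ) :=
      Real.rpow_le_rpow_of_nonpos (by linarith) (by linarith) (by norm_num)
    have f2 := half T (by linarith)
    have f3 : T ^ (-(4 / 5) : ℝ) = (K / 3 : ℝ) ^ (-(1 / 50) : ℝ) := by
      rw [hTdef, ← Real.rpow_mul (by positivity)]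
      norm_num
    have f4 : (K / 3 : ℝ) ^ (-(1 / 50) : ℝ) ≤ 3 * (K : ℝ) ^ (-(1 / 50) : ℝ) := by
      rw [Real.div_rpow hK0.le (by norm_num), Real.rpow_neg (by norm_num : (0 : ℝ) ≤ 3)]
      rw [div_inv_eq_mul, mul_comm]
      apply mul_le_mul_of_nonneg_right _ (by positivity)
      calc (3 : ℝ) ^ (1 / 50 : ℝ) ≤ 3 ^ (1 : ℝ) :=
            Real.rpow_le_rpow_of_exponent_le (by norm_num) (by norm_num)
        _ = 3 := Real.rpow_one 3
    rw [f3] at f2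
    linarith
  have c8 : 16 * (t : ℝ) * (1 / (t : ℝ) ^ 2) = 16 * (1 / t) := by field_simp
  have c9 : (114 : ℝ) / (t : ℝ) ^ 2 = 114 * (1 / (t : ℝ) ^ 2) := by ring
  have c10 : (34 : ℝ) / K = 34 * (1 / K) := by ring
  rw [c8, c10]
  rw [c9] at c3
  linarith

end Pool.Agent.H237.Digits
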