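import Mathlib
import Pool.Agent.H237.Digits.Assemble
import Pool.Agent.H237.Primes.Final

/-!
# All coefficients, subgroups, atomless measures
-/

namespace Pool.Agent.H237.Digits

open MeasureTheory Set Filter Topology Pool.Agent.H237.Gap

lemma hyp_map {μ : Measure UnitAddCircle} {K : ℕ} {σ τ : ℤ} (h : Hyp μ K σ τ) (n : ℤ) :
    Hyp (μ.map fun x : UnitAddCircle => n • x) K σ τ :=
  ⟨h.hσ, h.hτ, Primes.map_inv' h.two n, fun i h1 h2 => Primes.map_inv' (h.mers i h1 h2) n,
    fun i j h1 h2 h3 m hm => Primes.map_inv' (h.three i j h1 h2 h3 m hm) n⟩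

/-- The statement for one `K`. -/
def Bd (K : ℕ) (C : ℝ) : Prop := ∀ (ν : Measure UnitAddCircle) [IsProbabilityMeasure ν]
    (σ τ : ℤ), Hyp ν K σ τ →
    ‖(∫ x, (fourier 1 x : ℂ) ∂ν) - (g ν (1 / X K) : ℂ)‖ ≤ C * (K : ℝ) ^ (-(1 / 50) : ℝ)

lemma coeff_all {K : ℕ} {C : ℝ} (hK : Bd K C) (μ : Measure UnitAddCircle) [IsProbabilityMeasure μ]
    {σ τ : ℤ} (h : Hyp μ K σ τ) (n : ℤ) :
    ‖(∫ x, (fourier n x : ℂ) ∂μ) - (μ.real {x | ‖n • x‖ < 1 / X K} : ℂ)‖ ≤
      C * (K : ℝ) ^ (-(1 / 50) : ℝ) := by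
  have hn : Measurable fun x : UnitAddCircle => n • x := by fun_prop
  have hprob : IsProbabilityMeasure (μ.map fun x : UnitAddCircle => n • x) :=
    Measure.isProbabilityMeasure_map hn.aemeasurable
  have h1 := hK (μ.map fun x : UnitAddCircle => n • x) σ τ (hyp_map h n)
  have hc : Continuous fun x : UnitAddCircle => (fourier 1 x : ℂ) := by fun_prop
  rw [integral_map hn.aemeasurable hc.aestronglyMeasurable] at h1
  have e1 : ∀ x : UnitAddCircle, (fourier 1 (n • x) : ℂ) = fourier n x := by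
    intro x
    rw [fourier_apply, fourier_apply, one_smul]
  simp_rw [e1] at h1
  have hm : MeasurableSet {x : UnitAddCircle | ‖x‖ < 1 / X K} :=
    (isOpen_lt continuous_norm continuous_const).measurableSet
  unfold g at h1
  rw [Measure.real, Measure.map_apply hn hm] at h1
  exact h1

lemma subgroup_sum' {K : ℕ} {C : ℝ} (hK : Bd K C) {N : ℕ} [NeZero N] (hN : (N : ℝ) ≤ X K)
    (H : Subgroup (ZMod N)ˣ) [Fintype H] {σ τ : ℤ} (hσ : σ = 1 ∨ σ = -1) (hτ : τ = 1 ∨ τ = -1)
    (h2 : ∃ h ∈ H, ((h : (ZMod N)ˣ) : ZMod N) = 2)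
    (hM : ∀ i, 2 ≤ i → i ≤ K → ∃ h ∈ H, ((h : (ZMod N)ˣ) : ZMod N) = 2 ^ i - 1)
    (h3 : ∀ i j, 1 ≤ j → j < i → i ≤ K → ∃ h ∈ H, ((h : (ZMod N)ˣ) : ZMod N) = 2 ^ i + σ * 2 ^ j + τ)
    {a : ZMod N} (ha : a ≠ 0) :
    ‖∑ h : H, ZMod.stdAddChar (a * ((h : (ZMod N)ˣ) : ZMod N))‖ ≤
      C * (K : ℝ) ^ (-(1 / 50) : ℝ) * Fintype.card H := by
  set f : H → UnitAddCircle := fun h => ZMod.toAddCircle (a * ((h : (ZMod N)ˣ) : ZMod N)) with hf
  have hprob := Primes.avg_prob f
  have hgen : ∀ q : ℕ, (∃ h ∈ H, ((h : (ZMod N)ˣ) : ZMod N) = q) → Inv (Primes.avg f) q := by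
    rintro q ⟨u, huH, hu⟩
    refine Primes.avg_inv (Equiv.mulLeft (⟨u, huH⟩ : H)) ?_
    intro h
    rw [hf]
    simp only [Equiv.coe_mulLeft, Subgroup.coe_mul, Units.val_mul]
    rw [← map_nsmul, nsmul_eq_mul, hu]
    congr 1
    ring
  have hyp : Hyp (Primes.avg f) K σ τ := by
    refine ⟨hσ, hτ, hgen 2 (by simpa using h2), ?_, ?_⟩
    · intro i h1 h4
      apply hgen
      obtain ⟨h, hh, he⟩ := hM i h1 h4
      refine ⟨h, hh, ?_⟩
      rw [he]
      have : 1 ≤ 2 ^ i := Nat.one_le_two_pow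
      push_cast [Nat.cast_sub this]
      rfl
    · intro i j h1 h4 h5 m hm
      apply hgen
      obtain ⟨h, hh, he⟩ := h3 i j h1 h4 h5
      refine ⟨h, hh, ?_⟩
      rw [he]
      have : (((m : ℤ)) : ZMod N) = (((2 : ℤ) ^ i + σ * 2 ^ j + τ : ℤ) : ZMod N) := by rw [hm]
      push_cast at this
      exact this.symm
  have h1 := coeff_all hK (Primes.avg f) hyp 1
  have hX : 0 < X K := Real.exp_pos _
  have h2 : (Primes.avg f).real {x : UnitAddCircle | ‖(1 : ℤ) • x‖ < 1 / X K} = 0 := by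
    apply Primes.avg_null
    · simp only [one_smul]
      exact (isOpen_lt continuous_norm continuous_const).measurableSet
    · intro h hh
      rw [mem_ofPred_eq, one_smul] at hh
      have h3 : a * ((h : (ZMod N)ˣ) : ZMod N) ≠ 0 := by
        intro h0
        apply ha
        have := congrArg (fun z => z * (((h : (ZMod N)ˣ)⁻¹ : (ZMod N)ˣ) : ZMod N)) h0
        simpa [mul_assoc] using this
      have h4 := Primes.norm_toAddCircle h3
      have hN0 : (0 : ℝ) < N := by exact_mod_cast Nat.pos_of_ne_zero (NeZero.ne N)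
      have h5 : 1 / X K ≤ 1 / (N : ℝ) := one_div_le_one_div_of_le hN0 hN
      have : ‖f h‖ < ‖f h‖ := lt_of_lt_of_le hh (le_trans h5 h4)
      exact lt_irrefl _ this
  rw [h2, Primes.avg_integral] at h1
  simp only [Complex.ofReal_zero, sub_zero] at h1
  have hcard : (0 : ℝ) < Fintype.card H := by exact_mod_cast Fintype.card_pos
  have e1 : ∀ h : H, (fourier 1 (f h) : ℂ) = ZMod.stdAddChar (a * ((h : (ZMod N)ˣ) : ZMod N)) := by
    intro h
    rw [fourier_apply, one_smul, ZMod.stdAddChar_apply]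
    rfl
  simp_rw [e1] at h1
  rw [norm_mul, norm_inv, Complex.norm_natCast, inv_mul_eq_div, div_le_iff₀ hcard] at h1
  exact h1

/-- Integration against a probability measure, as a continuous functional. -/
noncomputable def fun1 (μ : Measure UnitAddCircle) [IsProbabilityMeasure μ] :
    C(UnitAddCircle, ℂ) →L[ℂ] ℂ :=
  LinearMap.mkContinuous
    { toFun := fun f => ∫ x, f x ∂μ
      map_add' := fun f h => by
        simp only [ContinuousMap.add_apply]
        exact integral_add (integrable_of_cont μ f.continuous) (integrable_of_cont μ h.continuous)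
      map_smul' := fun r f => by
        simp only [ContinuousMap.smul_apply, smul_eq_mul, RingHom.id_apply]
        exact integral_const_mul _ _ } 1 (by
    intro f
    rw [one_mul]
    calc ‖∫ x, f x ∂μ‖ ≤ ∫ x, ‖f x‖ ∂μ := norm_integral_le_integral_norm _
      _ ≤ ∫ _x : UnitAddCircle, ‖f‖ ∂μ := by
        apply integral_mono (integrable_of_contR μ f.continuous.norm) (integrable_const _)
        intro x
        exact f.norm_coe_le_norm x
      _ = ‖f‖ := by simp)

lemma eq_volume {μ : Measure UnitAddCircle} [IsProbabilityMeasure μ]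
    (h : ∀ n : ℤ, n ≠ 0 → ∫ x, (fourier n x : ℂ) ∂μ = 0) : μ = volume := by
  have h1 : (fun1 μ) = fun1 volume := by
    have hle : (⊤ : Submodule ℂ C(UnitAddCircle, ℂ)) ≤ LinearMap.ker (fun1 μ - fun1 volume).toLinearMap := by
      rw [← span_fourier_closure_eq_top]
      apply Submodule.topologicalClosure_minimal
      · rw [Submodule.span_le]
        rintro _ ⟨n, rfl⟩
        rw [SetLike.mem_coe, LinearMap.mem_ker]
        change (∫ x, (fourier n x : ℂ) ∂μ) - ∫ x, (fourier n x : ℂ) = 0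
        by_cases hn : n = 0
        · subst hn
          simp
        · rw [h n hn]
          have h2 : ∫ x : UnitAddCircle, (fourier n x : ℂ) = 0 := by
            exact integral_eq_zero_of_add_right_eq_neg (μ := volume)
              (fourier_add_half_inv_index (T := (1 : ℝ)) hn (by norm_num))
          rw [h2, sub_zero]
      · exact (fun1 μ - fun1 volume).isClosed_ker
    ext f
    have := hle (Submodule.mem_top (x := f))
    rw [LinearMap.mem_ker] at this
    exact sub_eq_zero.mp this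
  apply ext_of_forall_integral_eq_of_IsFiniteMeasure
  intro f
  set F : C(UnitAddCircle, ℂ) := ⟨fun x => (f x : ℂ), by fun_prop⟩ with hF
  have h2 : fun1 μ F = fun1 volume F := by rw [h1]
  change (∫ x, ((f x : ℝ) : ℂ) ∂μ) = ∫ x, ((f x : ℝ) : ℂ) at h2
  rw [integral_complex_ofReal, integral_complex_ofReal] at h2
  exact_mod_cast h2

lemma X_ge {K : ℕ} (hK : GoodK K) : (K : ℝ) ≤ X K := by
  unfold X
  have h1 := hK.vK
  have h2 := Real.add_one_le_exp (Real.exp (1 / 1000 * (K / Real.log K)))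
  have h3 := Real.add_one_le_exp (Real.exp (Real.exp (1 / 1000 * (K / Real.log K))))
  linarith

lemma tendsto_g (ν : Measure UnitAddCircle) [IsProbabilityMeasure ν] :
    Tendsto (fun K : ℕ => g ν (1 / X K)) atTop (𝓝 (ν.real {0})) := by
  rw [Metric.tendsto_atTop']
  intro ε hε
  obtain ⟨j, hj⟩ := ((b_tendsto ν).eventually (gt_mem_nhds hε)).exists
  obtain ⟨K₁, hK₁⟩ := eventually_atTop.mp eventually_goodK
  obtain ⟨K₂, hK₂⟩ := exists_nat_gt (Real.exp ((5 / 4 : ℝ) ^ j))
  refine ⟨max K₁ K₂, ?_⟩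
  intro K hK
  have h1 := X_ge (hK₁ K (le_trans (le_max_left _ _) hK.le))
  have h2 : (K₂ : ℝ) ≤ K := by exact_mod_cast le_trans (le_max_right _ _) hK.le
  have h3 : 1 / X K ≤ Real.exp (-((5 / 4 : ℝ) ^ j)) := by
    rw [Real.exp_neg, ← one_div]
    apply one_div_le_one_div_of_le (Real.exp_pos _)
    linarith
  have h4 : g ν (1 / X K) ≤ g ν (Real.exp (-((5 / 4 : ℝ) ^ j))) := g_mono ν h3
  have h5 : ν.real {0} ≤ g ν (1 / X K) := by
    unfold g
    apply measureReal_mono _ (measure_ne_top _ _)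
    intro x hx
    rw [mem_singleton_iff] at hx
    subst hx
    have : 0 < X K := Real.exp_pos _
    change ‖(0 : UnitAddCircle)‖ < 1 / X K
    rw [norm_zero]
    positivity
  have h6 : g ν (Real.exp (-((5 / 4 : ℝ) ^ j))) - ν.real {0} < ε := hj
  rw [Real.dist_eq, abs_of_nonneg (by linarith)]
  linarith

/-- The limit `K → ∞`. -/
lemma limit {C : ℝ} (hC : ∀ K : ℕ, 2 ≤ K → Bd K C) {μ : Measure UnitAddCircle}
    [IsProbabilityMeasure μ] {σ τ : ℤ} (h : ∀ K, Hyp μ K σ τ) (n : ℤ) :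
    ∫ x, (fourier n x : ℂ) ∂μ = (μ.real {x | n • x = 0} : ℂ) := by
  have hn : Measurable fun x : UnitAddCircle => n • x := by fun_prop
  have hprob : IsProbabilityMeasure (μ.map fun x : UnitAddCircle => n • x) :=
    Measure.isProbabilityMeasure_map hn.aemeasurable
  have h1 := tendsto_g (μ.map fun x : UnitAddCircle => n • x)
  have e1 : ∀ r : ℝ, g (μ.map fun x : UnitAddCircle => n • x) r = μ.real {x | ‖n • x‖ < r} := by
    intro r
    have hm : MeasurableSet {x : UnitAddCircle | ‖x‖ < r} :=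
      (isOpen_lt continuous_norm continuous_const).measurableSet
    unfold g
    rw [Measure.real, Measure.map_apply hn hm]
    rfl
  have e2 : (μ.map fun x : UnitAddCircle => n • x).real {0} = μ.real {x | n • x = 0} := by
    rw [Measure.real, Measure.map_apply hn (measurableSet_singleton 0)]
    rfl
  simp_rw [e1] at h1
  rw [e2] at h1
  have h2 : Tendsto (fun K : ℕ => ‖(∫ x, (fourier n x : ℂ) ∂μ) -
      (μ.real {x | ‖n • x‖ < 1 / X K} : ℂ)‖) atTop (𝓝 0) := by
    have h3 : Tendsto (fun K : ℕ => C * (K : ℝ) ^ (-(1 / 50) : ℝ)) atTop (𝓝 (C * 0)) := by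
      apply Tendsto.const_mul
      exact (tendsto_rpow_neg_atTop (by norm_num : (0 : ℝ) < 1 / 50)).comp
        tendsto_natCast_atTop_atTop
    rw [mul_zero] at h3
    apply squeeze_zero' (Eventually.of_forall fun K => norm_nonneg _) _ h3
    filter_upwards [eventually_ge_atTop 2] with K hK
    exact coeff_all (hC K hK) μ (h K) n
  have h3 : Tendsto (fun K : ℕ => ‖(∫ x, (fourier n x : ℂ) ∂μ) -
      (μ.real {x | ‖n • x‖ < 1 / X K} : ℂ)‖) atTop
      (𝓝 ‖(∫ x, (fourier n x : ℂ) ∂μ) - (μ.real {x | n • x = 0} : ℂ)‖) := by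
    apply Tendsto.norm
    apply Tendsto.sub tendsto_const_nhds
    exact (Complex.continuous_ofReal.tendsto _).comp h1
  have h4 := tendsto_nhds_unique h2 h3
  exact sub_eq_zero.mp (norm_eq_zero.mp h4.symm)

end Pool.Agent.H237.Digits
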